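import Pool.Agent.Q126.BD.Core
import Pool.Agent.Y636.CL.Mem

/-!
The asymptotic lower bound for DNF learners that get the examples in batches.
-/

set_option autoImplicit false

namespace Pool.Agent.Q126.BD

open Finset Pool.Agent.W964.Wd Pool.Agent.Y636.CL

/-- The three terms of the bound are small. -/
theorem asym_terms {n s j k τ b t N : ℕ} {β a δ ℓ lam : ℝ} (hβ : 0 < β) (hβ1 : β ≤ 1 / 2)
    (ha : 0 < a) (ha1 : a ≤ 1) (hδ : δ = β * a / 256)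
    (hn : (n : ℝ) = 2 ^ lam) (hs : (s : ℝ) = 2 ^ ℓ)
    (hlam : 64 / (β * a) ≤ lam) (hℓ : 512 / (β * a ^ 2) ≤ ℓ) (hℓn : ℓ ≤ (n : ℝ) ^ (1 / 2 : ℝ))
    (hj1 : (j : ℝ) ≤ (1 - a / 2) * ℓ) (hj2 : (1 - a / 2) * ℓ - 1 ≤ j)
    (hk1 : (k : ℝ) ≤ a / 2 * ℓ) (hk2 : a / 2 * ℓ - 1 ≤ k)
    (hτ1 : 8 / a * lam ≤ τ) (hτ2 : τ ≤ 8 / a * lam + 1)
    (hb : (b : ℝ) ≤ (n : ℝ) ^ (1 - β)) (ht : (t : ℝ) ≤ (s : ℝ) ^ (1 - a))
    (hN : (N : ℝ) ≤ (n : ℝ) ^ (δ * ℓ)) (hk : 1 ≤ k) (hjk : j + k ≤ n) :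
    2 ^ j / (((n : ℝ) ^ (-(δ * ℓ))) ^ 2 * ((n - j).choose k : ℝ))
        + 96 * 4 ^ (j + τ) * N * (4 * b / (n - j : ℕ)) ^ k
        + N * ((t.choose (τ + 1) : ℝ) / 2 ^ (j * τ)) ≤ (n : ℝ) ^ (-(δ * ℓ)) := by
  have hβa : 0 < β * a := by positivity
  have h2 : (0 : ℝ) < 2 := by norm_num
  have hβa1 : β * a ≤ 1 / 2 := by
    have := mul_le_mul hβ1 ha1 ha.le (by norm_num)
    linarith
  -- consequences for `lam` and `ℓ`
  have hl1 : 64 ≤ β * a * lam := by rwa [div_le_iff₀' hβa] at hlam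
  have hlam128 : 128 ≤ lam := by
    refine le_trans ?_ hlam
    rw [le_div_iff₀ hβa]; linarith
  have hlam0 : 0 < lam := by linarith
  have hal : 64 ≤ a * lam := by
    have h3 : β * (a * lam) ≤ 1 * (a * lam) :=
      mul_le_mul_of_nonneg_right (by linarith) (by positivity)
    linarith
  have hbl : 64 ≤ β * lam := by
    have h3 : a * (β * lam) ≤ 1 * (β * lam) :=
      mul_le_mul_of_nonneg_right ha1 (by positivity)
    linarith
  have hl2 : 512 ≤ β * a ^ 2 * ℓ := by rwa [div_le_iff₀' (by positivity)] at hℓ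
  have hℓ0 : 0 < ℓ := lt_of_lt_of_le (by positivity) hℓ
  have haℓ : 1024 ≤ a * ℓ := by
    have h3 : β * a * (a * ℓ) ≤ 1 / 2 * (a * ℓ) :=
      mul_le_mul_of_nonneg_right hβa1 (by positivity)
    have h4 : β * a ^ 2 * ℓ = β * a * (a * ℓ) := by ring
    linarith
  have hℓ1024 : 1024 ≤ ℓ := by
    have h3 : a * ℓ ≤ 1 * ℓ := mul_le_mul_of_nonneg_right ha1 hℓ0.le
    linarith
  have hkℓ : a * ℓ / 4 ≤ k := by linarith
  -- powers of `n`
  have hpn : ∀ x : ℝ, (n : ℝ) ^ x = 2 ^ (lam * x) := fun x => by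
    rw [hn, ← Real.rpow_mul h2.le]
  have hnR : (0 : ℝ) < n := by rw [hn]; positivity
  rw [hpn] at hb hN hℓn ⊢
  have hps : (s : ℝ) ^ (1 - a) = 2 ^ (ℓ * (1 - a)) := by rw [hs, ← Real.rpow_mul h2.le]
  rw [hps] at ht
  have mono : ∀ {x y : ℝ}, x ≤ y → (2 : ℝ) ^ x ≤ 2 ^ y := fun h =>
    Real.rpow_le_rpow_of_exponent_le (by norm_num) h
  -- `n - j ≥ n / 2`
  have hjn : (j : ℝ) ≤ n / 2 := by
    have h3 : (2 : ℝ) ^ (lam * (1 / 2)) ≤ 2 ^ (lam - 1) := mono (by linarith)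
    have h4 : (2 : ℝ) ^ (lam - 1) = n / 2 := by
      rw [Real.rpow_sub h2, Real.rpow_one, ← hn]
    have h5 : (1 - a / 2) * ℓ ≤ 1 * ℓ := mul_le_mul_of_nonneg_right (by linarith) hℓ0.le
    linarith
  have hnj : (n : ℝ) / 2 ≤ ((n - j : ℕ) : ℝ) := by
    rw [Nat.cast_sub (by omega)]; linarith
  have hnj0 : (0 : ℝ) < ((n - j : ℕ) : ℝ) := by linarith
  have hk0 : (0 : ℝ) < k := by exact_mod_cast hk
  -- the result as a power of two
  obtain ⟨E, hE⟩ : ∃ E : ℝ, E = δ * (lam * ℓ) := ⟨_, rfl⟩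
  have hE1 : lam * (δ * ℓ) = E := by rw [hE]; ring
  have hE2 : lam * -(δ * ℓ) = -E := by rw [hE]; ring
  rw [hE1] at hN
  rw [hE2]
  have hLL : 0 < lam * ℓ := by positivity
  have hE3 : E = β * a / 256 * (lam * ℓ) := by rw [hE, hδ]
  have hquarter : (2 : ℝ) ^ (-E - 2) = 2 ^ (-E) / 4 := by
    rw [Real.rpow_sub h2]; norm_num
  -- first term
  have hT1 : 2 ^ j / (((2 : ℝ) ^ (-E)) ^ 2 * ((n - j).choose k : ℝ)) ≤ 2 ^ (-E - 2) := by
    have hch : (2 : ℝ) ^ (a * (lam * ℓ) / 16) ≤ ((n - j).choose k : ℝ) := by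
      have h3 := pow_le_choose_real k (n - j) (by omega) hk
      refine le_trans ?_ h3
      have h4 : (2 : ℝ) ^ (lam / 4) ≤ ((n - j : ℕ) : ℝ) / k := by
        rw [le_div_iff₀ hk0]
        have h5 : (k : ℝ) ≤ 2 ^ (lam * (1 / 2)) := by
          have : a / 2 * ℓ ≤ 1 * ℓ := mul_le_mul_of_nonneg_right (by linarith) hℓ0.le
          linarith
        calc (2 : ℝ) ^ (lam / 4) * k ≤ 2 ^ (lam / 4) * 2 ^ (lam * (1 / 2)) :=
              mul_le_mul_of_nonneg_left h5 (by positivity)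
          _ = 2 ^ (lam / 4 + lam * (1 / 2)) := by rw [Real.rpow_add h2]
          _ ≤ 2 ^ (lam - 1) := mono (by linarith)
          _ = n / 2 := by rw [Real.rpow_sub h2, Real.rpow_one, ← hn]
          _ ≤ _ := hnj
      calc (2 : ℝ) ^ (a * (lam * ℓ) / 16) ≤ 2 ^ (lam / 4 * k) := by
            refine mono ?_
            have := mul_le_mul_of_nonneg_left hkℓ (by positivity : 0 ≤ lam / 4)
            linarith
        _ = (2 ^ (lam / 4)) ^ k := by rw [Real.rpow_mul h2.le, Real.rpow_natCast]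
        _ ≤ _ := pow_le_pow_left₀ (by positivity) h4 k
    have hsq : ((2 : ℝ) ^ (-E)) ^ 2 = 2 ^ (-(2 * E)) := by
      rw [← Real.rpow_natCast, ← Real.rpow_mul h2.le]; congr 1; push_cast; ring
    have hj3 : (2 : ℝ) ^ j ≤ 2 ^ ℓ := by
      rw [← Real.rpow_natCast]
      refine mono (hj1.trans ?_)
      have h5 : (1 - a / 2) * ℓ ≤ 1 * ℓ := mul_le_mul_of_nonneg_right (by linarith) hℓ0.le
      linarith
    rw [hsq]
    calc (2 : ℝ) ^ j / (2 ^ (-(2 * E)) * ((n - j).choose k : ℝ))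
        ≤ 2 ^ ℓ / (2 ^ (-(2 * E)) * 2 ^ (a * (lam * ℓ) / 16)) := by
          refine div_le_div₀ (by positivity) hj3 (by positivity) ?_
          exact mul_le_mul_of_nonneg_left hch (by positivity)
      _ = 2 ^ (ℓ - (-(2 * E) + a * (lam * ℓ) / 16)) := by
          rw [← Real.rpow_add h2, ← Real.rpow_sub h2]
      _ ≤ 2 ^ (-E - 2) := by
          refine mono ?_
          have h5 : β * a / 256 * (lam * ℓ) ≤ (1 / 2) * a / 256 * (lam * ℓ) :=
            mul_le_mul_of_nonneg_right (div_le_div_of_nonneg_right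
              (mul_le_mul_of_nonneg_right hβ1 ha.le) (by norm_num)) hLL.le
          have h6 : 64 * ℓ ≤ a * lam * ℓ := mul_le_mul_of_nonneg_right hal hℓ0.le
          have h7 : a * lam * ℓ = a * (lam * ℓ) := by ring
          rw [hE3]
          linarith
  -- second term
  have hT2 : 96 * 4 ^ (j + τ) * N * (4 * (b : ℝ) / (n - j : ℕ)) ^ k ≤ 2 ^ (-E - 2) := by
    have hx : 4 * (b : ℝ) / (n - j : ℕ) ≤ 2 ^ (-(β * lam / 2)) := by
      calc 4 * (b : ℝ) / (n - j : ℕ) ≤ 4 * 2 ^ (lam * (1 - β)) / (n / 2) :=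
            div_le_div₀ (by positivity) (by linarith) (by positivity) hnj
        _ = 2 ^ (3 : ℝ) * 2 ^ (lam * (1 - β)) / 2 ^ lam := by
            rw [hn]
            have : (2 : ℝ) ^ (3 : ℝ) = 8 := by norm_num
            rw [this]; field_simp; norm_num
        _ = 2 ^ (3 + lam * (1 - β) - lam) := by
            rw [Real.rpow_sub h2, Real.rpow_add h2]
        _ ≤ _ := mono (by linarith)
    have hxk : (4 * (b : ℝ) / (n - j : ℕ)) ^ k ≤ 2 ^ (-(β * a * (lam * ℓ) / 8)) := by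
      calc (4 * (b : ℝ) / (n - j : ℕ)) ^ k ≤ (2 ^ (-(β * lam / 2))) ^ k :=
            pow_le_pow_left₀ (by positivity) hx k
        _ = 2 ^ (-(β * lam / 2) * k) := by rw [Real.rpow_mul h2.le, Real.rpow_natCast]
        _ ≤ _ := by
            refine mono ?_
            have := mul_le_mul_of_nonneg_left hkℓ (by positivity : 0 ≤ β * lam / 2)
            linarith
    have h96 : (96 : ℝ) ≤ 2 ^ (7 : ℝ) := by norm_num
    have h4p : (4 : ℝ) ^ (j + τ) ≤ 2 ^ (2 * ℓ + 2 * (8 / a * lam + 1)) := by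
      have e : (4 : ℝ) ^ (j + τ) = 2 ^ (2 * ((j : ℝ) + τ)) := by
        rw [Real.rpow_mul h2.le]
        have : (2 : ℝ) ^ (2 : ℝ) = 4 := by norm_num
        rw [this, ← Nat.cast_add, Real.rpow_natCast]
      rw [e]
      refine mono ?_
      have h5 : (1 - a / 2) * ℓ ≤ 1 * ℓ := mul_le_mul_of_nonneg_right (by linarith) hℓ0.le
      linarith
    calc 96 * 4 ^ (j + τ) * N * (4 * (b : ℝ) / (n - j : ℕ)) ^ k
        ≤ 2 ^ (7 : ℝ) * 2 ^ (2 * ℓ + 2 * (8 / a * lam + 1)) * 2 ^ E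
          * 2 ^ (-(β * a * (lam * ℓ) / 8)) := by
          refine mul_le_mul ?_ hxk (by positivity) (by positivity)
          refine mul_le_mul ?_ hN (by positivity) (by positivity)
          exact mul_le_mul h96 h4p (by positivity) (by positivity)
      _ = 2 ^ (7 + (2 * ℓ + 2 * (8 / a * lam + 1)) + E + -(β * a * (lam * ℓ) / 8)) := by
          rw [← Real.rpow_add h2 7, ← Real.rpow_add h2, ← Real.rpow_add h2]
      _ ≤ _ := by
          refine mono ?_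
          have h6 : 64 * ℓ ≤ β * a * lam * ℓ := mul_le_mul_of_nonneg_right hl1 hℓ0.le
          have h7 : β * a * lam * ℓ = β * a * (lam * ℓ) := by ring
          have h8 : 512 * (lam / a) ≤ β * a * (lam * ℓ) := by
            have h9 := mul_le_mul_of_nonneg_right hl2 (by positivity : 0 ≤ lam / a)
            have h10 : β * a ^ 2 * ℓ * (lam / a) = β * a * (lam * ℓ) := by field_simp
            linarith
          have h11 : 8 / a * lam = 8 * (lam / a) := by ring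
          rw [hE3, h11]
          linarith
  -- third term
  have hT3 : (N : ℝ) * ((t.choose (τ + 1) : ℝ) / 2 ^ (j * τ)) ≤ 2 ^ (-E - 2) := by
    have hc : (t.choose (τ + 1) : ℝ) ≤ t ^ (τ + 1) := by
      exact_mod_cast Nat.choose_le_pow t (τ + 1)
    have ht1 : (t : ℝ) ≤ 2 ^ ℓ := ht.trans (mono (by
      have : ℓ * (1 - a) ≤ ℓ * 1 := mul_le_mul_of_nonneg_left (by linarith) hℓ0.le
      linarith))
    have hq : (t : ℝ) / 2 ^ j ≤ 2 ^ (-(a * ℓ / 4)) := by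
      calc (t : ℝ) / 2 ^ j ≤ 2 ^ (ℓ * (1 - a)) / 2 ^ ((1 - a / 2) * ℓ - 1) := by
            refine div_le_div₀ (by positivity) ht (by positivity) ?_
            rw [← Real.rpow_natCast]
            exact mono hj2
        _ = 2 ^ (ℓ * (1 - a) - ((1 - a / 2) * ℓ - 1)) := by rw [← Real.rpow_sub h2]
        _ ≤ _ := mono (by linarith)
    have hqτ : ((t : ℝ) / 2 ^ j) ^ τ ≤ 2 ^ (-(2 * (lam * ℓ))) := by
      calc ((t : ℝ) / 2 ^ j) ^ τ ≤ (2 ^ (-(a * ℓ / 4))) ^ τ :=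
            pow_le_pow_left₀ (by positivity) hq τ
        _ = 2 ^ (-(a * ℓ / 4) * τ) := by rw [Real.rpow_mul h2.le, Real.rpow_natCast]
        _ ≤ _ := by
            refine mono ?_
            have h9 := mul_le_mul_of_nonneg_left hτ1 (by positivity : 0 ≤ a * ℓ / 4)
            have h10 : a * ℓ / 4 * (8 / a * lam) = 2 * (lam * ℓ) := by field_simp; norm_num
            linarith
    calc (N : ℝ) * ((t.choose (τ + 1) : ℝ) / 2 ^ (j * τ))
        ≤ N * (t ^ (τ + 1) / 2 ^ (j * τ)) := by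
          refine mul_le_mul_of_nonneg_left ?_ (Nat.cast_nonneg _)
          exact div_le_div_of_nonneg_right hc (by positivity)
      _ = N * t * (t / 2 ^ j) ^ τ := by
          rw [div_pow, ← pow_mul, pow_succ]; ring
      _ ≤ 2 ^ E * 2 ^ ℓ * 2 ^ (-(2 * (lam * ℓ))) := by
          refine mul_le_mul ?_ hqτ (by positivity) (by positivity)
          exact mul_le_mul hN ht1 (by positivity) (by positivity)
      _ = 2 ^ (E + ℓ + -(2 * (lam * ℓ))) := by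
          rw [Real.rpow_add h2, Real.rpow_add h2]
      _ ≤ _ := by
          refine mono ?_
          have h5 : β * a / 256 * (lam * ℓ) ≤ 1 / 256 * (lam * ℓ) :=
            mul_le_mul_of_nonneg_right (by linarith) hLL.le
          have h6 : 128 * ℓ ≤ lam * ℓ := mul_le_mul_of_nonneg_right hlam128 hℓ0.le
          rw [hE3]
          linarith
  have hp : (0 : ℝ) < 2 ^ (-E) := by positivity
  linarith

/-- The asymptotic lower bound. -/
theorem dnf_asym (β a : ℝ) (hβ : 0 < β) (hβ1 : β ≤ 1 / 2) (ha : 0 < a) (ha1 : a ≤ 1) :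
    ∃ n₀ s₀ : ℕ, ∀ n s : ℕ, n₀ ≤ n → s₀ ≤ s →
      Real.logb 2 s ≤ (n : ℝ) ^ (1 / 2 : ℝ) → ∀ b t N : ℕ, 1 ≤ N →
      (b : ℝ) ≤ (n : ℝ) ^ (1 - β) → (t : ℝ) ≤ (s : ℝ) ^ (1 - a) →
      (N : ℝ) ≤ (n : ℝ) ^ (β * a / 256 * Real.logb 2 s) →
      ∀ (R : Type) [Fintype R] [Nonempty R] (π : R → Prot N (Fin t → Ex n) (Hy n)),
        (∀ r i, (π r).load i ≤ b) →
        ∃ f : Hy n, IsDnf s f ∧
          batchLearnR (fun r => (π r).run) f
            (1 / 2 - (n : ℝ) ^ (-(β * a / 256 * Real.logb 2 s)))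
          ≤ (n : ℝ) ^ (-(β * a / 256 * Real.logb 2 s)) := by
  have hβa : 0 < β * a := by positivity
  refine ⟨⌈(2 : ℝ) ^ (64 / (β * a))⌉₊, ⌈(2 : ℝ) ^ (512 / (β * a ^ 2))⌉₊, ?_⟩
  intro n s hn hs hsn b t N hN hb ht hNn R _ _ π hπ
  have hnR := Nat.ceil_le.1 hn
  have hsR := Nat.ceil_le.1 hs
  have hn0 : (0 : ℝ) < n := lt_of_lt_of_le (by positivity) hnR
  have hs0 : (0 : ℝ) < s := lt_of_lt_of_le (by positivity) hsR
  obtain ⟨lam, hlam⟩ : ∃ lam : ℝ, lam = Real.logb 2 n := ⟨_, rfl⟩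
  obtain ⟨ℓ, hℓ⟩ : ∃ ℓ : ℝ, ℓ = Real.logb 2 s := ⟨_, rfl⟩
  have hn2 : (n : ℝ) = 2 ^ lam := by
    rw [hlam, Real.rpow_logb (by norm_num) (by norm_num) hn0]
  have hs2 : (s : ℝ) = 2 ^ ℓ := by
    rw [hℓ, Real.rpow_logb (by norm_num) (by norm_num) hs0]
  have hlam1 : 64 / (β * a) ≤ lam := by
    rw [hlam, Real.le_logb_iff_rpow_le (by norm_num) hn0]; exact hnR
  have hℓ1 : 512 / (β * a ^ 2) ≤ ℓ := by
    rw [hℓ, Real.le_logb_iff_rpow_le (by norm_num) hs0]; exact hsR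
  rw [← hℓ] at hsn hNn ⊢
  -- sizes
  have hβa1 : β * a ≤ 1 / 2 := by
    have := mul_le_mul hβ1 ha1 ha.le (by norm_num)
    linarith
  have hlam128 : 128 ≤ lam := by
    refine le_trans ?_ hlam1
    rw [le_div_iff₀ hβa]; linarith
  have hℓ0 : 0 < ℓ := lt_of_lt_of_le (by positivity) hℓ1
  have hlam0 : 0 < lam := by linarith
  have hl2 : 512 ≤ β * a ^ 2 * ℓ := by rwa [div_le_iff₀' (by positivity)] at hℓ1
  have haℓ : 1024 ≤ a * ℓ := by
    have h3 : β * a * (a * ℓ) ≤ 1 / 2 * (a * ℓ) :=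
      mul_le_mul_of_nonneg_right hβa1 (by positivity)
    have h4 : β * a ^ 2 * ℓ = β * a * (a * ℓ) := by ring
    linarith
  have hℓ1024 : 1024 ≤ ℓ := by
    have h3 : a * ℓ ≤ 1 * ℓ := mul_le_mul_of_nonneg_right ha1 hℓ0.le
    linarith
  obtain ⟨j, hj⟩ : ∃ j : ℕ, j = ⌊(1 - a / 2) * ℓ⌋₊ := ⟨_, rfl⟩
  obtain ⟨k, hk⟩ : ∃ k : ℕ, k = ⌊a / 2 * ℓ⌋₊ := ⟨_, rfl⟩
  obtain ⟨τ, hτ⟩ : ∃ τ : ℕ, τ = ⌈8 / a * lam⌉₊ := ⟨_, rfl⟩
  have hj1 : (j : ℝ) ≤ (1 - a / 2) * ℓ := by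
    rw [hj]
    exact Nat.floor_le (mul_nonneg (by linarith) hℓ0.le)
  have hj2 : (1 - a / 2) * ℓ - 1 ≤ j := by
    rw [hj]
    have := Nat.lt_floor_add_one ((1 - a / 2) * ℓ)
    linarith
  have hk1 : (k : ℝ) ≤ a / 2 * ℓ := by
    rw [hk]
    exact Nat.floor_le (by positivity)
  have hk2 : a / 2 * ℓ - 1 ≤ k := by
    rw [hk]
    have := Nat.lt_floor_add_one (a / 2 * ℓ)
    linarith
  have hτ1 : 8 / a * lam ≤ τ := by rw [hτ]; exact Nat.le_ceil _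
  have hτ2 : (τ : ℝ) ≤ 8 / a * lam + 1 := by
    rw [hτ]; exact (Nat.ceil_lt_add_one (by positivity)).le
  have hk1' : 1 ≤ k := by
    have : (1 : ℝ) ≤ k := by linarith
    exact_mod_cast this
  have hjkℓ : ((j + k : ℕ) : ℝ) ≤ ℓ := by push_cast; linarith
  have hn1 : (1 : ℝ) ≤ n := by
    rw [hn2]; exact Real.one_le_rpow (by norm_num) hlam0.le
  have hℓn : ℓ ≤ n := by
    refine hsn.trans ?_
    calc (n : ℝ) ^ (1 / 2 : ℝ) ≤ (n : ℝ) ^ (1 : ℝ) :=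
          Real.rpow_le_rpow_of_exponent_le hn1 (by norm_num)
      _ = n := Real.rpow_one _
  have hjkn : j + k ≤ n := by
    have : ((j + k : ℕ) : ℝ) ≤ n := hjkℓ.trans hℓn
    exact_mod_cast this
  have hsz : 2 ^ (j + k - 1) + 1 ≤ s := by
    have h1 : ((2 ^ (j + k) : ℕ) : ℝ) ≤ s := by
      push_cast
      rw [hs2, ← Real.rpow_natCast]
      refine Real.rpow_le_rpow_of_exponent_le (by norm_num) ?_
      push_cast at hjkℓ
      push_cast
      exact hjkℓ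
    have h2 : 2 ^ (j + k) ≤ s := by exact_mod_cast h1
    have h3 : 2 ^ (j + k) = 2 * 2 ^ (j + k - 1) := by
      rw [← pow_succ']
      congr 1
      omega
    have h4 : 1 ≤ 2 ^ (j + k - 1) := Nat.one_le_two_pow
    omega
  -- enlarge the number of bits
  obtain ⟨b', hb'⟩ : ∃ b' : ℕ, b' = max b k := ⟨_, rfl⟩
  have hb'R : (b' : ℝ) ≤ (n : ℝ) ^ (1 - β) := by
    rw [hb']
    push_cast
    refine max_le hb ?_
    have h1 : a / 2 * ℓ ≤ 1 * ℓ := mul_le_mul_of_nonneg_right (by linarith) hℓ0.le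
    have h2 : (n : ℝ) ^ (1 / 2 : ℝ) ≤ (n : ℝ) ^ (1 - β) :=
      Real.rpow_le_rpow_of_exponent_le hn1 (by linarith)
    linarith
  obtain ⟨f, hf1, hf2⟩ := dnf_core (n := n) (t := t) (j := j) (k := k) (s := s) (b := b')
    (τ := τ) π hN (fun r i => (hπ r i).trans (by rw [hb']; exact le_max_left b k)) hk1' hjkn
    (by rw [hb']; have := le_max_right b k; omega) hsz
    (γ := (n : ℝ) ^ (-(β * a / 256 * ℓ))) (by positivity)
  refine ⟨f, hf1, hf2.trans ?_⟩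
  exact asym_terms hβ hβ1 ha ha1 rfl hn2 hs2 hlam1 hℓ1 hsn hj1 hj2 hk1 hk2 hτ1 hτ2 hb'R ht hNn
    hk1' hjkn

/-- The asymptotic lower bound for learners with little memory. -/
theorem dnf_mem (β a : ℝ) (hβ : 0 < β) (hβ1 : β ≤ 1 / 2) (ha : 0 < a) (ha1 : a ≤ 1) :
    ∃ n₀ s₀ : ℕ, ∀ n s : ℕ, n₀ ≤ n → s₀ ≤ s →
      Real.logb 2 s ≤ (n : ℝ) ^ (1 / 2 : ℝ) → ∀ S P t N : ℕ, 1 ≤ N →
      (S : ℝ) * P ≤ (n : ℝ) ^ (1 - β) → (t : ℝ) ≤ (s : ℝ) ^ (1 - a) →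
      (N : ℝ) ≤ (n : ℝ) ^ (β * a / 256 * Real.logb 2 s) →
      ∀ (R : Type) [Fintype R] [Nonempty R]
        (L : R → MemLearner N S P (Fin t → Ex n) (Hy n)),
        ∃ f : Hy n, IsDnf s f ∧
          batchLearnR (fun r => (L r).run) f
            (1 / 2 - (n : ℝ) ^ (-(β * a / 256 * Real.logb 2 s)))
          ≤ (n : ℝ) ^ (-(β * a / 256 * Real.logb 2 s)) := by
  obtain ⟨n₀, s₀, h⟩ := dnf_asym β a hβ hβ1 ha ha1
  refine ⟨n₀, s₀, fun n s hn hs h1 S P t N h2 h3 h4 h5 R _ _ L => ?_⟩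
  choose π hπ1 hπ2 using fun r => exists_sim (L r)
  obtain ⟨f, hf1, hf2⟩ := h n s hn hs h1 (S * P) t N h2 (by push_cast; exact h3) h4 h5 R π hπ2
  refine ⟨f, hf1, ?_⟩
  have e : (fun r => (π r).run) = fun r => (L r).run := by
    funext r e
    exact hπ1 r e
  rwa [e] at hf2

end Pool.Agent.Q126.BD
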