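import Pool.Agent.Q126.BD.Main

/-!
The explicit lower bound for learning DNF formulas with batches of examples.
-/

set_option autoImplicit false

namespace Pool.Agent.Q126.BD

open Finset Pool.Agent.W964.Wd Pool.Agent.Y636.CL Pool.Agent.Q126.BL

variable {n t j k : ℕ}

theorem batchLearn_le_one {N : ℕ} (A : (Fin N → Fin t → Ex n) → Hy n) (f : Hy n) (η : ℝ) :
    batchLearn A f η ≤ 1 := by
  unfold batchLearn
  rw [← card_batches]
  refine div_le_one_of_le₀ ?_ (Nat.cast_nonneg _)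
  exact_mod_cast card_le_univ _

/-- The lower bound for DNF formulas. -/
theorem dnf_core {N s b τ : ℕ} {R : Type} [Fintype R] [Nonempty R]
    (π : R → Prot N (Fin t → Ex n) (Hy n)) (hN : 1 ≤ N)
    (hb : ∀ r i, (π r).load i ≤ b) (hk : 1 ≤ k) (hjk : j + k ≤ n) (hkb : k ≤ 2 * b)
    (hs : 2 ^ (j + k - 1) + 1 ≤ s) {γ : ℝ} (hγ : 0 < γ) :
    ∃ f : Hy n, IsDnf s f ∧ batchLearnR (fun r => (π r).run) f (1 / 2 - γ)
      ≤ 2 ^ j / (γ ^ 2 * ((n - j).choose k : ℝ))
        + 96 * 4 ^ (j + τ) * N * (4 * b / (n - j : ℕ)) ^ k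
        + N * ((t.choose (τ + 1) : ℝ) / 2 ^ (j * τ)) := by
  classical
  have hkR : (0 : ℝ) < k := by exact_mod_cast hk
  have hbR : (0 : ℝ) < b := by exact_mod_cast (by omega : 0 < b)
  have hNR : (1 : ℝ) ≤ N := by exact_mod_cast hN
  obtain ⟨m, hm⟩ : ∃ m : ℕ, m = n - j := ⟨_, rfl⟩
  have hkm : k ≤ m := by omega
  have hmR : (0 : ℝ) < m := by exact_mod_cast (by omega : 0 < m)
  rw [← hm]
  let ι : Fin j → Fin n := Fin.castLE (by omega)
  have hι : Function.Injective ι := Fin.castLE_injective _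
  obtain ⟨SS, hSSd⟩ : ∃ SS : Finset (Finset (Fin n)),
    SS = powersetCard k (univ \ univ.image ι) := ⟨_, rfl⟩
  have hcW : (univ \ univ.image ι : Finset (Fin n)).card = m := by
    rw [card_sdiff_of_subset (subset_univ _), card_univ, Fintype.card_fin,
      card_image_of_injective _ hι, card_univ, Fintype.card_fin, hm]
  have hSSc : SS.card = m.choose k := by rw [hSSd, card_powersetCard, hcW]
  have hSS : ∀ S ∈ SS, S.card = k := fun S hS => by
    rw [hSSd] at hS
    exact (mem_powersetCard.1 hS).2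
  have hSι : ∀ S ∈ SS, ∀ h, ι h ∉ S := by
    intro S hS h hh
    rw [hSSd] at hS
    exact (mem_sdiff.1 ((mem_powersetCard.1 hS).1 hh)).2 (mem_image_of_mem _ (mem_univ h))
  have hne : SS.Nonempty := by
    rw [← card_pos, hSSc]
    exact Nat.choose_pos hkm
  have hSp : (0 : ℝ) < SS.card := by exact_mod_cast hne.card_pos
  have hSSR : (SS.card : ℝ) = (m.choose k : ℝ) := by rw [hSSc]
  obtain ⟨c, hc⟩ : ∃ c : ℝ, c = (m.choose k : ℝ) := ⟨_, rfl⟩
  rw [← hc] at hSSR ⊢
  have hcp : 0 < c := by rw [← hSSR]; exact hSp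
  have hchoose := pow_le_choose_real k m hkm hk
  rw [← hc] at hchoose
  obtain ⟨ρ, hρ⟩ : ∃ ρ : ℝ, ρ = k / (2 * b) := ⟨_, rfl⟩
  have h0 : 0 < ρ := by rw [hρ]; positivity
  have h1 : ρ ≤ 1 := by
    rw [hρ, div_le_one (by positivity)]
    exact_mod_cast hkb
  obtain ⟨x, hx⟩ : ∃ x : ℝ, x = 4 * b / m := ⟨_, rfl⟩
  have hx0 : 0 ≤ x := by rw [hx]; positivity
  rw [← hx]
  have hval : ρ⁻¹ ^ k / c * (2 : ℝ) ^ (2 * ρ * b) ≤ x ^ k := by
    have h2 : 2 * ρ * b = (k : ℝ) := by rw [hρ]; field_simp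
    have h3 : ρ⁻¹ ^ k * 2 ^ k = (4 * b / k) ^ k := by
      rw [← mul_pow, hρ]
      congr 1
      field_simp
      norm_num
    rw [h2, Real.rpow_natCast, div_mul_eq_mul_div, h3, div_le_iff₀ hcp]
    have h4 : x ^ k * ((m : ℝ) / k) ^ k = (4 * b / k) ^ k := by
      rw [← mul_pow, hx]
      congr 1
      field_simp
    rw [← h4]
    exact mul_le_mul_of_nonneg_left hchoose (by positivity)
  have hval0 : ρ⁻¹ ^ k / c ≤ x ^ k := by
    refine le_trans ?_ hval
    refine le_mul_of_one_le_right (by positivity) ?_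
    exact Real.one_le_rpow (by norm_num) (by positivity)
  obtain ⟨V, hV⟩ : ∃ V : ℝ, V = 4 ^ (j + τ) := ⟨_, rfl⟩
  have hV1 : 1 ≤ V := by rw [hV]; exact one_le_pow₀ (by norm_num)
  have hV2 : ((2 : ℝ) ^ j * 2 ^ τ) ^ 2 = V := by
    rw [hV, ← pow_add, ← pow_mul, mul_comm, pow_mul]
    norm_num
  rw [← hV]
  have hT3 : 0 ≤ (N : ℝ) * ((t.choose (τ + 1) : ℝ) / 2 ^ (j * τ)) := by positivity
  have hT1 : 0 ≤ 2 ^ j / (γ ^ 2 * c) := by positivity
  obtain ⟨P, hP⟩ : ∃ P : Finset ((Fin j → Bool) → Finset (Fin n)),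
    P = Fintype.piFinset (fun _ : Fin j → Bool => SS) := ⟨_, rfl⟩
  have hPne : P.Nonempty := by
    obtain ⟨S, hS⟩ := hne
    exact ⟨fun _ => S, by rw [hP]; exact Fintype.mem_piFinset.2 fun _ => hS⟩
  have hPp : (0 : ℝ) < P.card := by exact_mod_cast hPne.card_pos
  have hPc : (P.card : ℝ) = c ^ (2 ^ j) := by
    rw [hP, Fintype.card_piFinset, prod_const, card_univ, Fintype.card_fun, Fintype.card_fin,
      Fintype.card_bool, ← hSSR]
    push_cast
    rfl
  have hdnf : ∀ S ∈ P, IsDnf s (tgA ι S) := fun S hS => by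
    rw [hP] at hS
    exact tgA_dnf ι (fun a => hSS _ (Fintype.mem_piFinset.1 hS a)) hk hs
  by_cases hL : V * (ρ⁻¹ ^ k / c) ≤ 1
  swap
  · -- the bound is trivial
    push Not at hL
    obtain ⟨S, hS⟩ := hPne
    refine ⟨tgA ι S, hdnf S hS, ?_⟩
    have h2 : batchLearnR (fun r => (π r).run) (tgA ι S) (1 / 2 - γ) ≤ 1 := by
      unfold batchLearnR
      refine div_le_one_of_le₀ ?_ (Nat.cast_nonneg _)
      refine (sum_le_sum fun r _ => batchLearn_le_one _ _ _).trans (le_of_eq ?_)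
      rw [sum_const, card_univ, nsmul_eq_mul, mul_one]
    have h3 : 1 ≤ V * x ^ k := hL.le.trans (mul_le_mul_of_nonneg_left hval0 (by linarith))
    have h4 : 1 ≤ 96 * V * N * x ^ k := by
      have h5 : 0 ≤ V * x ^ k := by positivity
      calc (1 : ℝ) ≤ V * x ^ k := h3
        _ = 1 * 1 * (V * x ^ k) := by ring
        _ ≤ 96 * N * (V * x ^ k) := by
          refine mul_le_mul_of_nonneg_right ?_ h5
          exact mul_le_mul (by norm_num) hNR (by norm_num) (by norm_num)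
        _ = _ := by ring
    linarith
  · obtain ⟨B, hB⟩ : ∃ B : ℝ, B = 2 ^ j / (γ ^ 2 * c) + 96 * V * N * x ^ k
        + N * ((t.choose (τ + 1) : ℝ) / 2 ^ (j * τ)) := ⟨_, rfl⟩
    rw [← hB]
    have hsum : ∀ r, ∑ S ∈ P, batchLearn (π r).run (tgA ι S) (1 / 2 - γ) ≤ P.card * B := by
      intro r
      have h2 := sum_learn_le (t := t) h0 h1 ι τ SS hne hSS hSι
        (by rw [hV2, hSSR]; exact hL) (π r) (hb r) hγ
      rw [← hP, hSSR, hV2, ← hPc] at h2
      refine h2.trans ?_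
      rw [hB, mul_add, mul_add]
      refine add_le_add (add_le_add ?_ ?_) ?_
      · have h3 : Real.exp 1 ≤ 4 := by
          have := Real.exp_one_lt_d9
          linarith
        have h4 : 0 ≤ (2 : ℝ) ^ j / (4 * γ ^ 2) * (P.card / c) := by positivity
        calc Real.exp 1 * (2 ^ j / (4 * γ ^ 2) * (P.card / c))
            ≤ 4 * (2 ^ j / (4 * γ ^ 2) * (P.card / c)) := mul_le_mul_of_nonneg_right h3 h4
          _ = P.card * (2 ^ j / (γ ^ 2 * c)) := by field_simp
      · have h3 : Real.exp 2 ≤ 8 := by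
          have h1 := Real.exp_one_lt_d9
          have h2 : Real.exp 2 = Real.exp 1 ^ 2 := by
            rw [← Real.exp_nat_mul]; norm_num
          rw [h2]
          have h3 := Real.exp_pos 1
          nlinarith
        have h4 : (N : ℝ) * (4 * V * (ρ⁻¹ ^ k / c) * P.card * 2 ^ (2 * ρ * b))
            ≤ N * (4 * V * P.card * x ^ k) := by
          refine mul_le_mul_of_nonneg_left ?_ (by linarith)
          calc 4 * V * (ρ⁻¹ ^ k / c) * P.card * (2 : ℝ) ^ (2 * ρ * b)
              = 4 * V * P.card * (ρ⁻¹ ^ k / c * 2 ^ (2 * ρ * b)) := by ring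
            _ ≤ 4 * V * P.card * x ^ k := mul_le_mul_of_nonneg_left hval (by positivity)
        have h5 : 0 ≤ 3 * ((N : ℝ) * (4 * V * (ρ⁻¹ ^ k / c) * P.card * 2 ^ (2 * ρ * b))) := by
          have : (0 : ℝ) < ρ⁻¹ := by positivity
          positivity
        calc Real.exp 2 * (3 * ((N : ℝ) * (4 * V * (ρ⁻¹ ^ k / c) * P.card * 2 ^ (2 * ρ * b))))
            ≤ 8 * (3 * ((N : ℝ) * (4 * V * P.card * x ^ k))) := by
              refine mul_le_mul h3 (mul_le_mul_of_nonneg_left h4 (by norm_num)) h5 (by norm_num)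
          _ = P.card * (96 * V * N * x ^ k) := by ring
      · refine mul_le_mul_of_nonneg_left ?_ hPp.le
        refine mul_le_mul_of_nonneg_left ?_ (by linarith)
        refine (av_not_typ ι hι τ).trans (le_of_eq ?_)
        rw [mul_add, mul_one, pow_add, one_div_pow, one_div_pow]
        field_simp
    have hsumR : ∑ S ∈ P, batchLearnR (fun r => (π r).run) (tgA ι S) (1 / 2 - γ)
        ≤ P.card * B := by
      unfold batchLearnR
      rw [← sum_div, sum_comm, div_le_iff₀ (by exact_mod_cast Fintype.card_pos)]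
      refine (sum_le_sum fun r _ => hsum r).trans (le_of_eq ?_)
      rw [sum_const, card_univ, nsmul_eq_mul]
      ring
    obtain ⟨S, hS, hSle⟩ : ∃ S ∈ P, batchLearnR (fun r => (π r).run) (tgA ι S) (1 / 2 - γ)
        ≤ B := by
      refine exists_le_of_sum_le hPne (hsumR.trans (le_of_eq ?_))
      rw [sum_const, nsmul_eq_mul]
    exact ⟨tgA ι S, hdnf S hS, hSle⟩

end Pool.Agent.Q126.BD
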