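import Pool.Agent.Y636.CL.Defs

/-!
Learning with protocols whose parties hold a batch of labelled examples each: definitions.
-/

set_option autoImplicit false

namespace Pool.Agent.Q126.BD

open Finset Pool.Agent.W964.Wd Pool.Agent.Y636.CL

/-- The probability, over `N * t` independent uniformly distributed points `X i j`, that the
learner `A` outputs a hypothesis with error at most `η` if it is given the `N` batches of the `t`
examples `(X i j, f (X i j))`, `j < t`. -/
noncomputable def batchLearn {n t N : ℕ} (A : (Fin N → Fin t → Ex n) → Hy n) (f : Hy n)
    (η : ℝ) : ℝ :=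
  ((univ.filter fun X : Fin N → Fin t → Fin n → Bool =>
    err f (A fun i j => (X i j, f (X i j))) ≤ η).card : ℝ) / ((2 ^ n) ^ t) ^ N

/-- The average of `batchLearn` over a finite family of learners: the success probability of a
randomized learner. -/
noncomputable def batchLearnR {n t N : ℕ} {R : Type} [Fintype R]
    (A : R → (Fin N → Fin t → Ex n) → Hy n) (f : Hy n) (η : ℝ) : ℝ :=
  (∑ r, batchLearn (A r) f η) / Fintype.card R

end Pool.Agent.Q126.BD
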