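import Pool.Agent.Q126.BD.Lev

/-!
Batches of examples of a function that is a parity on every leaf of an addressing function: the
likelihood ratio for fixed addresses.
-/

set_option autoImplicit false

namespace Pool.Agent.Q126.BD

open Finset Pool.Agent.TH661.LPX Pool.Agent.Y636.CL Pool.Agent.Q126.BL

/-- Minkowski's inequality. -/
theorem mink {ι σ : Type*} (s : Finset ι) (P : Finset σ) (g : ι → σ → ℝ) (c : ι → ℝ)
    (hc : ∀ i ∈ s, 0 ≤ c i) (h : ∀ i ∈ s, ∑ x ∈ P, g i x ^ 2 ≤ c i ^ 2) :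
    ∑ x ∈ P, (∑ i ∈ s, g i x) ^ 2 ≤ (∑ i ∈ s, c i) ^ 2 := by
  have h1 : ∀ x ∈ P, (∑ i ∈ s, g i x) ^ 2 = ∑ i ∈ s, ∑ j ∈ s, g i x * g j x := by
    intro x _
    rw [sq, sum_mul_sum]
  rw [sum_congr rfl h1, sum_comm, sq, sum_mul_sum]
  refine sum_le_sum fun i hi => ?_
  rw [sum_comm]
  refine sum_le_sum fun j hj => ?_
  have h2 := sum_mul_sq_le_sq_mul_sq P (g i) (g j)
  have h3 : (∑ x ∈ P, g i x * g j x) ^ 2 ≤ (c i * c j) ^ 2 := by
    refine h2.trans ?_
    rw [mul_pow]
    exact mul_le_mul (h i hi) (h j hj) (sum_nonneg fun _ _ => sq_nonneg _) (sq_nonneg _)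
  exact (le_abs_self _).trans (abs_le_of_sq_le_sq h3 (mul_nonneg (hc i hi) (hc j hj)))

section fibre

variable {n t k : ℕ} {L : Type*} [Fintype L] [DecidableEq L]

/-- The bits of the character of the examples in `I`. -/
def TI (α : Fin t → L) (S : L → Finset (Fin n)) (I : Finset (Fin t)) : Finset (Bi n t) :=
  univ.filter fun p => p.1 ∈ I ∧ ∀ v, p.2 = some v → v ∈ S (α p.1)

/-- The bits of a variable in the examples of a leaf. -/
def cola (α : Fin t → L) (q : L × Fin n) : Finset (Bi n t) :=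
  univ.filter fun p => α p.1 = q.1 ∧ p.2 = some q.2

omit [Fintype L] in
theorem tcj_TI [Fintype L] (α : Fin t → L) (S : L → Finset (Fin n)) (I : Finset (Fin t)) :
    tcj (cola α) (TI α S I) = univ.filter fun q : L × Fin n => q.1 ∈ I.image α ∧ q.2 ∈ S q.1 := by
  ext q
  unfold tcj
  rw [mem_filter, mem_filter, not_disjoint_iff]
  refine and_congr_right fun _ => ?_
  constructor
  · rintro ⟨p, hp, hpc⟩
    obtain ⟨hp1, hp2⟩ := (mem_filter.1 hp).2
    obtain ⟨hc1, hc2⟩ := (mem_filter.1 hpc).2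
    refine ⟨mem_image.2 ⟨p.1, hp1, hc1⟩, ?_⟩
    rw [← hc1]
    exact hp2 _ hc2
  · rintro ⟨h1, h2⟩
    obtain ⟨i, hi, hia⟩ := mem_image.1 h1
    refine ⟨(i, some q.2), mem_filter.2 ⟨mem_univ _, hi, ?_⟩, mem_filter.2 ⟨mem_univ _, hia, rfl⟩⟩
    intro v hv
    have : q.2 = v := Option.some_injective _ hv
    rw [← this, hia]
    exact h2

theorem card_cols (S : L → Finset (Fin n)) (R : Finset L) (hS : ∀ a, (S a).card = k) :
    (univ.filter fun q : L × Fin n => q.1 ∈ R ∧ q.2 ∈ S q.1).card = k * R.card := by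
  have h1 : (univ.filter fun q : L × Fin n => q.1 ∈ R ∧ q.2 ∈ S q.1)
      = (R.sigma fun a => S a).map ⟨fun p => (p.1, p.2), by
        rintro ⟨a, v⟩ ⟨a', v'⟩ h
        simp only [Prod.mk.injEq] at h
        obtain ⟨rfl, rfl⟩ := h
        rfl⟩ := by
    ext q
    simp only [mem_filter, mem_univ, true_and, mem_map, mem_sigma]
    constructor
    · rintro ⟨h1, h2⟩
      exact ⟨⟨q.1, q.2⟩, ⟨h1, h2⟩, rfl⟩
    · rintro ⟨p, ⟨h1, h2⟩, rfl⟩
      exact ⟨h1, h2⟩
  rw [h1, card_map, card_sigma, sum_congr rfl fun a _ => hS a, sum_const, smul_eq_mul, mul_comm]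

/-- One character. -/
theorem one_char {ρ : ℝ} (h0 : 0 < ρ) (h1 : ρ ≤ 1) (α : Fin t → L) (SS : Finset (Finset (Fin n)))
    (hSS : ∀ S ∈ SS, S.card = k) (I : Finset (Fin t)) (F : (Bi n t → Bool) → ℝ) :
    ∑ S ∈ Fintype.piFinset (fun _ : L => SS), fI F (TI α S I) ^ 2
      ≤ (SS.card : ℝ) ^ (Fintype.card L - (I.image α).card) *
        (ρ⁻¹ ^ (k * (I.image α).card) * nn ρ F) := by
  obtain ⟨R, hR⟩ : ∃ R : Finset L, R = I.image α := ⟨_, rfl⟩
  obtain ⟨Q, hQ⟩ : ∃ Q : (L → Finset (Fin n)) → Finset (L × Fin n),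
    Q = fun S => univ.filter fun q : L × Fin n => q.1 ∈ R ∧ q.2 ∈ S q.1 := ⟨_, rfl⟩
  obtain ⟨a, ha⟩ : ∃ a : Finset (L × Fin n) → ℝ,
    a = fun Z => nn ρ (pr (clj (cola α) univ Z) F) := ⟨_, rfl⟩
  have ha0 : ∀ Z, 0 ≤ a Z := fun Z => by rw [ha]; exact nn_nonneg _ _
  rw [← hR]
  have hle : ∀ S ∈ Fintype.piFinset (fun _ : L => SS), fI F (TI α S I) ^ 2 ≤ a (Q S) := by
    intro S _
    have h2 := sq_fI_le (cola α) h0.le F (TI α S I)
    rw [tcj_TI, ← hR] at h2
    rw [ha, hQ]
    exact h2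
  refine (sum_le_sum hle).trans ?_
  have hcard : ∀ S ∈ Fintype.piFinset (fun _ : L => SS),
      Q S ∈ powersetCard (k * R.card) (univ : Finset (L × Fin n)) := by
    intro S hS
    rw [mem_powersetCard, hQ]
    refine ⟨subset_univ _, card_cols S R fun a => ?_⟩
    exact hSS _ (Fintype.mem_piFinset.1 hS a)
  rw [← sum_fiberwise_of_maps_to hcard]
  have hfib : ∀ Z ∈ powersetCard (k * R.card) (univ : Finset (L × Fin n)),
      ∑ S ∈ (Fintype.piFinset (fun _ : L => SS)).filter (fun S => Q S = Z), a (Q S)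
        ≤ (SS.card : ℝ) ^ (Fintype.card L - R.card) * a Z := by
    intro Z _
    have h2 : ∀ S ∈ (Fintype.piFinset (fun _ : L => SS)).filter (fun S => Q S = Z),
        a (Q S) = a Z := fun S hS => by rw [(mem_filter.1 hS).2]
    rw [sum_congr rfl h2, sum_const, nsmul_eq_mul]
    refine mul_le_mul_of_nonneg_right ?_ (ha0 Z)
    rcases ((Fintype.piFinset (fun _ : L => SS)).filter (fun S => Q S = Z)).eq_empty_or_nonempty
      with he | ⟨S₀, hS₀⟩
    · rw [he, card_empty, Nat.cast_zero]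
      positivity
    · have hsub : (Fintype.piFinset (fun _ : L => SS)).filter (fun S => Q S = Z)
          ⊆ Fintype.piFinset (fun a : L => if a ∈ R then {S₀ a} else SS) := by
        intro S hS
        rw [Fintype.mem_piFinset]
        intro a
        split_ifs with haR
        · rw [mem_singleton]
          have h3 : Q S = Q S₀ := (mem_filter.1 hS).2.trans (mem_filter.1 hS₀).2.symm
          ext v
          have h4 : (a, v) ∈ Q S ↔ (a, v) ∈ Q S₀ := by rw [h3]
          rw [hQ] at h4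
          simp only [mem_filter, mem_univ, true_and] at h4
          constructor
          · exact fun hv => (h4.1 ⟨haR, hv⟩).2
          · exact fun hv => (h4.2 ⟨haR, hv⟩).2
        · exact Fintype.mem_piFinset.1 (mem_filter.1 hS).1 a
      have h3 := card_le_card hsub
      rw [Fintype.card_piFinset] at h3
      have h4 : ∀ a : L, (if a ∈ R then ({S₀ a} : Finset (Finset (Fin n))) else SS).card
          = if a ∈ R then 1 else SS.card := by
        intro a
        split_ifs <;> simp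
      rw [prod_congr rfl fun a _ => h4 a, prod_ite, prod_const_one, one_mul, prod_const] at h3
      have h5 : (univ.filter fun a : L => a ∉ R).card = Fintype.card L - R.card := by
        rw [← card_compl]
        congr 1
        ext a; simp
      rw [h5] at h3
      exact_mod_cast h3
  refine (sum_le_sum hfib).trans ?_
  rw [← mul_sum]
  refine mul_le_mul_of_nonneg_left ?_ (by positivity)
  rw [ha]
  exact level_card (cola α) h0 h1 F _

/-- The sum over all nonempty sets of examples. -/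
theorem sum_image_le (α : Fin t → L) (τ : ℕ)
    (hτ : ∀ a, (univ.filter fun i => α i = a).card ≤ τ) {u : ℝ} (hu : 0 ≤ u)
    (hL : Fintype.card L * (2 ^ τ * u) ≤ 1) :
    ∑ I ∈ (univ : Finset (Finset (Fin t))).erase ∅, u ^ (I.image α).card
      ≤ 2 * (Fintype.card L * (2 ^ τ * u)) := by
  have hmaps : ∀ I ∈ (univ : Finset (Finset (Fin t))).erase ∅,
      I.image α ∈ (univ : Finset (Finset L)).erase ∅ := by
    intro I hI
    rw [mem_erase] at hI ⊢
    exact ⟨fun h => hI.1 (image_eq_empty.1 h), mem_univ _⟩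
  rw [← sum_fiberwise_of_maps_to hmaps]
  have hfib : ∀ R ∈ (univ : Finset (Finset L)).erase ∅,
      ∑ I ∈ ((univ : Finset (Finset (Fin t))).erase ∅).filter (fun I => I.image α = R),
        u ^ (I.image α).card ≤ (2 ^ τ * u) ^ R.card := by
    intro R _
    have h2 : ∀ I ∈ ((univ : Finset (Finset (Fin t))).erase ∅).filter (fun I => I.image α = R),
        u ^ (I.image α).card = u ^ R.card := fun I hI => by rw [(mem_filter.1 hI).2]
    rw [sum_congr rfl h2, sum_const, nsmul_eq_mul, mul_pow]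
    refine mul_le_mul_of_nonneg_right ?_ (by positivity)
    have hsub : ((univ : Finset (Finset (Fin t))).erase ∅).filter (fun I => I.image α = R)
        ⊆ (univ.filter fun i => α i ∈ R).powerset := by
      intro I hI
      rw [mem_powerset]
      intro i hi
      rw [mem_filter]
      refine ⟨mem_univ _, ?_⟩
      rw [← (mem_filter.1 hI).2]
      exact mem_image_of_mem _ hi
    have h3 := card_le_card hsub
    rw [card_powerset] at h3
    have h4 : (univ.filter fun i => α i ∈ R).card ≤ τ * R.card := by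
      have h5 : (univ.filter fun i => α i ∈ R) ⊆ R.biUnion fun a => univ.filter fun i => α i = a := by
        intro i hi
        rw [mem_biUnion]
        exact ⟨α i, (mem_filter.1 hi).2, mem_filter.2 ⟨mem_univ _, rfl⟩⟩
      refine (card_le_card h5).trans (card_biUnion_le.trans ?_)
      refine (sum_le_card_nsmul R _ τ fun a _ => hτ a).trans (le_of_eq ?_)
      rw [smul_eq_mul, mul_comm]
    have h6 : ((((univ : Finset (Finset (Fin t))).erase ∅).filter
        (fun I => I.image α = R)).card : ℝ) ≤ 2 ^ (τ * R.card) := by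
      exact_mod_cast h3.trans (Nat.pow_le_pow_right (by norm_num) h4)
    rw [← pow_mul]
    exact h6
  refine (sum_le_sum hfib).trans ?_
  obtain ⟨v, hv⟩ : ∃ v : ℝ, v = 2 ^ τ * u := ⟨_, rfl⟩
  rw [← hv] at hL ⊢
  have hv0 : 0 ≤ v := by rw [hv]; positivity
  have h2 := sum_powerset_pow (univ : Finset L) v
  rw [powerset_univ, card_univ, ← add_sum_erase _ _ (mem_univ ∅), card_empty, pow_zero] at h2
  have h3 : (1 + v) ^ Fintype.card L ≤ Real.exp (Fintype.card L * v) := by
    rw [Real.exp_nat_mul]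
    exact pow_le_pow_left₀ (by linarith) (by linarith [Real.add_one_le_exp v]) _
  have h4 := Real.abs_exp_sub_one_le (x := Fintype.card L * v) (by
    rw [abs_of_nonneg (by positivity)]; exact hL)
  rw [abs_of_nonneg (by positivity : 0 ≤ (Fintype.card L : ℝ) * v)] at h4
  have h5 := (abs_le.1 h4).2
  linarith

/-- The likelihood ratio for fixed addresses, minus one. -/
noncomputable def psiA (α : Fin t → L) (S : L → Finset (Fin n)) (z : Bi n t → Bool) : ℝ :=
  ∏ i, (1 + sg (z (i, none)) * ∏ v ∈ S (α i), sg (z (i, some v))) - 1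

omit [Fintype L] [DecidableEq L] in
theorem ch_TI (α : Fin t → L) (S : L → Finset (Fin n)) (I : Finset (Fin t))
    (z : Bi n t → Bool) :
    ch (TI α S I) z = ∏ i ∈ I, (sg (z (i, none)) * ∏ v ∈ S (α i), sg (z (i, some v))) := by
  unfold ch TI
  rw [prod_filter, Fintype.prod_prod_type, ← prod_subset (subset_univ I)]
  · refine prod_congr rfl fun i hi => ?_
    rw [Fintype.prod_option]
    congr 1
    · rw [if_pos]
      exact ⟨hi, fun v hv => by simp at hv⟩
    · have h1 : ∀ v : Fin n, (if i ∈ I ∧ ∀ v', (some v : Option (Fin n)) = some v' → v' ∈ S (α i)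
          then sg (z (i, some v)) else 1) = if v ∈ S (α i) then sg (z (i, some v)) else 1 := by
        intro v
        by_cases hv : v ∈ S (α i)
        · rw [if_pos hv, if_pos]
          refine ⟨hi, fun v' h => ?_⟩
          have : v = v' := Option.some_injective _ h
          rw [← this]; exact hv
        · rw [if_neg hv, if_neg]
          exact fun h => hv (h.2 v rfl)
      rw [prod_congr rfl fun v _ => h1 v, prod_ite_mem, univ_inter]
  · intro i _ hi
    refine prod_eq_one fun o _ => ?_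
    rw [if_neg]
    exact fun h => hi h.1

omit [Fintype L] [DecidableEq L] in
theorem psiA_eq (α : Fin t → L) (S : L → Finset (Fin n)) (z : Bi n t → Bool) :
    psiA α S z = ∑ I ∈ (univ : Finset (Finset (Fin t))).erase ∅, ch (TI α S I) z := by
  unfold psiA
  rw [Finset.prod_one_add, powerset_univ, ← add_sum_erase _ _ (mem_univ ∅), prod_empty]
  rw [add_sub_cancel_left]
  exact sum_congr rfl fun I _ => (ch_TI α S I z).symm

omit [Fintype L] [DecidableEq L] in
theorem av_psiA (α : Fin t → L) (S : L → Finset (Fin n)) (F : (Bi n t → Bool) → ℝ) :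
    av (fun z => F z * psiA α S z)
      = ∑ I ∈ (univ : Finset (Finset (Fin t))).erase ∅, fI F (TI α S I) := by
  have h1 : ∀ z, F z * psiA α S z
      = ∑ I ∈ (univ : Finset (Finset (Fin t))).erase ∅, F z * ch (TI α S I) z := by
    intro z
    rw [psiA_eq, mul_sum]
  rw [av_congr h1, av_sum]
  rfl

/-- The inequality for fixed addresses. -/
theorem fibre_le {ρ : ℝ} (h0 : 0 < ρ) (h1 : ρ ≤ 1) (α : Fin t → L) (SS : Finset (Finset (Fin n)))
    (hne : SS.Nonempty) (hSS : ∀ S ∈ SS, S.card = k) (τ : ℕ)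
    (hτ : ∀ a, (univ.filter fun i => α i = a).card ≤ τ)
    (hL : (Fintype.card L * 2 ^ τ) ^ 2 * (ρ⁻¹ ^ k / SS.card) ≤ 1) (F : (Bi n t → Bool) → ℝ) :
    ∑ S ∈ Fintype.piFinset (fun _ : L => SS), (av fun z => F z * psiA α S z) ^ 2
      ≤ 4 * (Fintype.card L * 2 ^ τ) ^ 2 * (ρ⁻¹ ^ k / SS.card) *
        (SS.card : ℝ) ^ Fintype.card L * nn ρ F := by
  have hSp : (0 : ℝ) < SS.card := by exact_mod_cast hne.card_pos
  obtain ⟨θ, hθ⟩ : ∃ θ : ℝ, θ = ρ⁻¹ ^ k / SS.card := ⟨_, rfl⟩
  have hθ0 : 0 ≤ θ := by rw [hθ]; positivity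
  obtain ⟨u, hu⟩ : ∃ u : ℝ, u = Real.sqrt θ := ⟨_, rfl⟩
  have hu0 : 0 ≤ u := by rw [hu]; exact Real.sqrt_nonneg _
  have huu : u ^ 2 = θ := by rw [hu]; exact Real.sq_sqrt hθ0
  obtain ⟨B, hB⟩ : ∃ B : ℝ, B = Real.sqrt ((SS.card : ℝ) ^ Fintype.card L * nn ρ F) := ⟨_, rfl⟩
  have hB0 : 0 ≤ B := by rw [hB]; exact Real.sqrt_nonneg _
  have hn0 := nn_nonneg ρ F
  have hBB : B ^ 2 = (SS.card : ℝ) ^ Fintype.card L * nn ρ F := by
    rw [hB]; exact Real.sq_sqrt (by positivity)
  rw [← hθ] at hL ⊢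
  obtain ⟨V, hV⟩ : ∃ V : ℝ, V = Fintype.card L * 2 ^ τ := ⟨_, rfl⟩
  have hV0 : 0 ≤ V := by rw [hV]; positivity
  rw [← hV] at hL ⊢
  have hVu : V * u ≤ 1 := by
    have h2 : (V * u) ^ 2 ≤ 1 := by rw [mul_pow, huu]; exact hL
    nlinarith [mul_nonneg hV0 hu0]
  have h2 : ∀ S ∈ Fintype.piFinset (fun _ : L => SS), (av fun z => F z * psiA α S z) ^ 2
      = (∑ I ∈ (univ : Finset (Finset (Fin t))).erase ∅, fI F (TI α S I)) ^ 2 :=
    fun S _ => by rw [av_psiA]
  rw [sum_congr rfl h2]
  have h3 := mink ((univ : Finset (Finset (Fin t))).erase ∅)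
    (Fintype.piFinset (fun _ : L => SS)) (fun I S => fI F (TI α S I))
    (fun I => B * u ^ (I.image α).card) (fun I _ => by positivity) (by
      intro I _
      refine (one_char h0 h1 α SS hSS I F).trans (le_of_eq ?_)
      have hr : (I.image α).card ≤ Fintype.card L := card_le_univ _
      have e : (u ^ (I.image α).card) ^ 2 = θ ^ (I.image α).card := by
        rw [← pow_mul, mul_comm, pow_mul, huu]
      rw [mul_pow, hBB, e, hθ, div_pow, ← pow_mul]
      have h4 : (SS.card : ℝ) ^ Fintype.card L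
          = (SS.card : ℝ) ^ (Fintype.card L - (I.image α).card) *
            (SS.card : ℝ) ^ (I.image α).card := by
        rw [← pow_add]; congr 1; omega
      rw [h4]
      field_simp)
  refine h3.trans ?_
  rw [← mul_sum]
  have h4 := sum_image_le α τ hτ hu0 (by rw [← mul_assoc, ← hV]; exact hVu)
  have e4 : 2 * ((Fintype.card L : ℝ) * (2 ^ τ * u)) = 2 * (V * u) := by rw [hV]; ring
  rw [e4] at h4
  have h5 : 0 ≤ ∑ I ∈ (univ : Finset (Finset (Fin t))).erase ∅, u ^ (I.image α).card :=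
    sum_nonneg fun _ _ => by positivity
  calc (B * ∑ I ∈ (univ : Finset (Finset (Fin t))).erase ∅, u ^ (I.image α).card) ^ 2
      ≤ (B * (2 * (V * u))) ^ 2 :=
        pow_le_pow_left₀ (by positivity) (mul_le_mul_of_nonneg_left h4 hB0) 2
    _ = 4 * V ^ 2 * u ^ 2 * B ^ 2 := by ring
    _ = _ := by rw [huu, hBB]; ring

end fibre

end Pool.Agent.Q126.BD
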