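import Pool.Agent.Q126.BD.Typ

/-!
Functions that are a parity on every leaf of an addressing function: formulas, correlated
hypotheses, frequent addresses.
-/

set_option autoImplicit false

namespace Pool.Agent.Q126.BD

open Finset Pool.Agent.TH661.LPX Pool.Agent.Y636.CL Pool.Agent.Q126.BL

variable {n t j k : ℕ}

/-- The target is a DNF formula. -/
theorem tgA_dnf (ι : Fin j → Fin n) {S : (Fin j → Bool) → Finset (Fin n)}
    (hS : ∀ a, (S a).card = k) (hk : 1 ≤ k) {s : ℕ} (hs : 2 ^ (j + k - 1) + 1 ≤ s) :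
    Pool.Agent.W964.Wd.IsDnf s (tgA ι S) := by
  classical
  choose r T hr hT using fun a => tg_dnf (hS a) hk (le_refl (2 ^ (k - 1) + 1))
  have hr' : ∀ a, r a ≤ 2 ^ (k - 1) := fun a => by have := hr a; omega
  let E := (a : Fin j → Bool) × Fin (r a)
  have hcard : Fintype.card E ≤ 2 ^ (j + k - 1) := by
    rw [Fintype.card_sigma]
    simp only [Fintype.card_fin]
    refine (sum_le_card_nsmul _ _ _ fun a _ => hr' a).trans (le_of_eq ?_)
    rw [card_univ, Fintype.card_fun, Fintype.card_fin, Fintype.card_bool, smul_eq_mul, ← pow_add]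
    congr 1
    omega
  let e := Fintype.equivFin E
  refine ⟨Fintype.card E, fun i => T (e.symm i).1 (e.symm i).2 ∪
    univ.image fun h => (ι h, (e.symm i).1 h), by omega, fun x => ?_⟩
  constructor
  · intro hx
    obtain ⟨i, hi⟩ := (hT (ad ι x) x).1 hx
    have key : ∀ q : E, q = ⟨ad ι x, i⟩ → ∀ p ∈ T q.1 q.2 ∪
        univ.image (fun h => (ι h, q.1 h)), x p.1 = p.2 := by
      rintro _ rfl p hp
      rcases mem_union.1 hp with h | h
      · exact hi p h
      · obtain ⟨h', _, rfl⟩ := mem_image.1 h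
        rfl
    exact ⟨e ⟨ad ι x, i⟩, key _ (e.symm_apply_apply _)⟩
  · rintro ⟨i, hi⟩
    have had : ad ι x = (e.symm i).1 := by
      funext h
      exact hi (ι h, (e.symm i).1 h) (mem_union_right _ (mem_image_of_mem _ (mem_univ h)))
    show tg (S (ad ι x)) x = true
    rw [had]
    exact (hT (e.symm i).1 x).2 ⟨(e.symm i).2, fun p hp => hi p (mem_union_left _ hp)⟩

/-- The part of a hypothesis on a leaf. -/
noncomputable def HA (ι : Fin j → Fin n) (h : (Fin n → Bool) → Bool) (a : Fin j → Bool)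
    (x : Fin n → Bool) : ℝ := if ad ι x = a then sg (h x) else 0

/-- The correlation of a hypothesis of small error. -/
theorem corr_A (ι : Fin j → Fin n) (S : (Fin j → Bool) → Finset (Fin n))
    {h : (Fin n → Bool) → Bool} {γ : ℝ}
    (he : Pool.Agent.W964.Wd.err (tgA ι S) h ≤ 1 / 2 - γ) :
    2 * γ ≤ ∑ a, fI (HA ι h a) (S a) := by
  classical
  have h2n : (0 : ℝ) < 2 ^ n := by positivity
  have h3 : ∀ x : Fin n → Bool, sg (h x) * sg (tgA ι S x) =
        1 - 2 * (if h x ≠ tgA ι S x then (1 : ℝ) else 0) := by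
    intro x
    unfold sg
    cases h x <;> cases tgA ι S x <;> simp <;> norm_num
  have h4 : ∑ a, fI (HA ι h a) (S a) = av fun x : Fin n → Bool => sg (h x) * sg (tgA ι S x) := by
    unfold fI
    rw [← av_sum]
    refine av_congr fun x => ?_
    rw [sum_eq_single (ad ι x)]
    · unfold HA
      rw [if_pos rfl]
      congr 1
      unfold tgA
      rw [sg_tg]
    · intro a _ ha
      unfold HA
      rw [if_neg (fun h => ha h.symm), zero_mul]
    · intro h
      exact absurd (mem_univ _) h
  rw [h4]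
  unfold av
  rw [sum_congr rfl fun x _ => h3 x, sum_sub_distrib, ← mul_sum,
    sum_boole, sum_const, card_univ, Fintype.card_fun, Fintype.card_fin,
    Fintype.card_bool, nsmul_eq_mul, mul_one]
  unfold Pool.Agent.W964.Wd.err at he
  rw [div_le_iff₀ h2n] at he
  push_cast
  rw [le_div_iff₀ h2n]
  have h4 : ((univ.filter (fun x : Fin n → Bool => h x ≠ tgA ι S x)).card : ℝ) ≤
      (1 / 2 - γ) * 2 ^ n := by
    convert he using 3
  linarith

theorem sum_pi_one {L : Type*} [Fintype L] [DecidableEq L] {β : Type*} (SS : Finset β)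
    (G : β → ℝ) (a : L) :
    ∑ S ∈ Fintype.piFinset (fun _ : L => SS), G (S a)
      = (SS.card : ℝ) ^ (Fintype.card L - 1) * ∑ s ∈ SS, G s := by
  classical
  obtain ⟨g, hg⟩ : ∃ g : L → β → ℝ, g = fun b s => if b = a then G s else 1 := ⟨_, rfl⟩
  have hga : ∀ s, g a s = G s := fun s => by rw [hg]; exact if_pos rfl
  have hgb : ∀ b, b ≠ a → ∀ s, g b s = 1 := fun b hb s => by rw [hg]; exact if_neg hb
  have h1 : ∀ S : L → β, G (S a) = ∏ b, g b (S b) := by
    intro S
    rw [← mul_prod_erase univ _ (mem_univ a), hga, prod_eq_one, mul_one]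
    intro b hb
    exact hgb b (ne_of_mem_erase hb) _
  rw [sum_congr rfl fun S _ => h1 S, ← prod_univ_sum (fun _ : L => SS) g,
    ← mul_prod_erase univ _ (mem_univ a)]
  have h2 : ∏ b ∈ univ.erase a, ∑ s ∈ SS, g b s = (SS.card : ℝ) ^ (Fintype.card L - 1) := by
    have h3 : ∀ b ∈ univ.erase a, ∑ s ∈ SS, g b s = (SS.card : ℝ) := by
      intro b hb
      rw [sum_congr rfl fun s _ => hgb b (ne_of_mem_erase hb) s, sum_const, nsmul_eq_mul, mul_one]
    rw [prod_congr rfl h3, prod_const, card_erase_of_mem (mem_univ a), card_univ]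
  rw [h2, sum_congr rfl fun s _ => hga s]
  ring

open Classical in
/-- Few targets are correlated with a hypothesis. -/
theorem count_goodA (ι : Fin j → Fin n) (h : (Fin n → Bool) → Bool) {γ : ℝ} (hγ : 0 < γ)
    (SS : Finset (Finset (Fin n))) (hne : SS.Nonempty) :
    ∑ S ∈ Fintype.piFinset (fun _ : Fin j → Bool => SS),
        (if Pool.Agent.W964.Wd.err (tgA ι S) h ≤ 1 / 2 - γ then (1 : ℝ) else 0)
      ≤ 2 ^ j / (4 * γ ^ 2) * ((SS.card : ℝ) ^ (2 ^ j) / SS.card) := by
  have hSp : (0 : ℝ) < SS.card := by exact_mod_cast hne.card_pos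
  have hcL : Fintype.card (Fin j → Bool) = 2 ^ j := by
    rw [Fintype.card_fun, Fintype.card_fin, Fintype.card_bool]
  have h1 : ∀ S ∈ Fintype.piFinset (fun _ : Fin j → Bool => SS),
      (if Pool.Agent.W964.Wd.err (tgA ι S) h ≤ 1 / 2 - γ then (1 : ℝ) else 0)
      ≤ 2 ^ j / (4 * γ ^ 2) * ∑ a, fI (HA ι h a) (S a) ^ 2 := by
    intro S _
    split_ifs with he
    · have h2 := corr_A ι S he
      have h3 : (∑ a, fI (HA ι h a) (S a)) ^ 2 ≤ 2 ^ j * ∑ a, fI (HA ι h a) (S a) ^ 2 := by
        have h4 := sq_sum_le_card_mul_sum_sq (s := (univ : Finset (Fin j → Bool)))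
          (f := fun a => fI (HA ι h a) (S a))
        rw [card_univ, hcL] at h4
        push_cast at h4
        exact h4
      have h4 : (2 * γ) ^ 2 ≤ (∑ a, fI (HA ι h a) (S a)) ^ 2 :=
        pow_le_pow_left₀ (by positivity) h2 2
      rw [div_mul_eq_mul_div, le_div_iff₀ (by positivity)]
      nlinarith
    · have : 0 ≤ ∑ a, fI (HA ι h a) (S a) ^ 2 := sum_nonneg fun _ _ => sq_nonneg _
      positivity
  refine (sum_le_sum h1).trans ?_
  rw [← mul_sum]
  refine mul_le_mul_of_nonneg_left ?_ (by positivity)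
  rw [sum_comm]
  have h2 : ∀ a : Fin j → Bool, ∑ S ∈ Fintype.piFinset (fun _ : Fin j → Bool => SS),
      fI (HA ι h a) (S a) ^ 2
      ≤ (SS.card : ℝ) ^ (2 ^ j - 1) * av fun x => HA ι h a x ^ 2 := by
    intro a
    rw [sum_pi_one SS (fun s => fI (HA ι h a) s ^ 2) a, hcL]
    refine mul_le_mul_of_nonneg_left ?_ (by positivity)
    have h3 := fI_abs_weight_le (ρ := 1) (by norm_num) le_rfl (HA ι h a)
    have h4 : (av fun x : Fin n → Bool => |HA ι h a x| ^ (1 + 1 : ℝ)) ^ (2 / (1 + 1) : ℝ)
        = av fun x => HA ι h a x ^ 2 := by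
      have h5 : ∀ x : Fin n → Bool, |HA ι h a x| ^ (1 + 1 : ℝ) = HA ι h a x ^ 2 := by
        intro x
        have : (1 + 1 : ℝ) = ((2 : ℕ) : ℝ) := by norm_num
        rw [this, Real.rpow_natCast, sq_abs]
      rw [av_congr h5]
      norm_num
    rw [h4] at h3
    refine le_trans (le_trans (sum_le_sum_of_subset_of_nonneg (subset_univ SS)
      fun T _ _ => sq_nonneg _) (le_of_eq ?_)) h3
    exact sum_congr rfl fun T _ => by rw [one_pow, one_mul]
  refine (sum_le_sum fun a _ => h2 a).trans ?_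
  rw [← mul_sum, ← av_sum]
  have h3 : ∀ x : Fin n → Bool, ∑ a, HA ι h a x ^ 2 = 1 := by
    intro x
    rw [sum_eq_single (ad ι x)]
    · unfold HA
      rw [if_pos rfl, sq, sg_mul_self]
    · intro a _ ha
      unfold HA
      rw [if_neg (fun h => ha h.symm)]
      norm_num
    · intro h
      exact absurd (mem_univ _) h
  rw [av_congr h3, av_const, mul_one]
  have h4 : (SS.card : ℝ) ^ (2 ^ j) = (SS.card : ℝ) ^ (2 ^ j - 1) * SS.card := by
    rw [← pow_succ]
    congr 1
    have : 1 ≤ 2 ^ j := Nat.one_le_two_pow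
    omega
  rw [h4, mul_div_assoc, div_self hSp.ne', mul_one]

theorem av_ad (ι : Fin j → Fin n) (hι : Function.Injective ι) (a : Fin j → Bool) :
    av (fun x : Fin n → Bool => ind (ad ι x = a)) = (1 / 2) ^ j := by
  classical
  have h1 : ∀ x : Fin n → Bool, ind (ad ι x = a)
      = ∏ v ∈ univ.image ι, (fun (v : Fin n) (b : Bool) =>
        ind (b = Function.extend ι a (fun _ => false) v)) v (x v) := by
    intro x
    rw [prod_image fun u _ v _ h => hι h]
    by_cases h : ad ι x = a
    · rw [ind_true h]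
      refine (prod_eq_one fun h' _ => ?_).symm
      refine ind_true ?_
      rw [hι.extend_apply, ← h]
      rfl
    · rw [ind_false h]
      obtain ⟨h', hh'⟩ := Function.ne_iff.1 h
      refine (prod_eq_zero (mem_univ h') (ind_false ?_)).symm
      rw [hι.extend_apply]
      exact hh'
  rw [av_congr h1, av_pi_subset (univ.image ι) (fun (v : Fin n) (b : Bool) =>
        ind (b = Function.extend ι a (fun _ => false) v))]
  have h2 : ∀ v ∈ univ.image ι, av (fun b : Bool =>
      ind (b = Function.extend ι a (fun _ => false) v)) = 1 / 2 := by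
    intro v _
    unfold av
    rw [Fintype.sum_bool, Fintype.card_bool]
    cases Function.extend ι a (fun _ => false) v <;> simp [ind]
  rw [prod_congr rfl h2, prod_const, card_image_of_injective _ hι, card_univ, Fintype.card_fin]

/-- Frequent addresses are not likely. -/
theorem av_not_typ (ι : Fin j → Fin n) (hι : Function.Injective ι) (τ : ℕ) :
    av (fun X : Fin t → Fin n → Bool => ind (¬ Typ ι τ X))
      ≤ 2 ^ j * ((t.choose (τ + 1) : ℝ) * (1 / 2) ^ (j * (τ + 1))) := by
  classical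
  have h1 : ∀ X : Fin t → Fin n → Bool, ind (¬ Typ ι τ X)
      ≤ ∑ a : Fin j → Bool, ∑ I ∈ powersetCard (τ + 1) (univ : Finset (Fin t)),
        ∏ i ∈ I, (fun (_ : Fin t) (x : Fin n → Bool) => ind (ad ι x = a)) i (X i) := by
    intro X
    by_cases h : ¬ Typ ι τ X
    · rw [ind_true h]
      unfold Typ at h
      push Not at h
      obtain ⟨a, ha⟩ := h
      obtain ⟨I, hI1, hI2⟩ := exists_subset_card_eq (Nat.succ_le_of_lt ha)
      have h2 : (1 : ℝ) = ∏ i ∈ I, ind (ad ι (X i) = a) := by
        refine (prod_eq_one fun i hi => ind_true ?_).symm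
        exact (mem_filter.1 (hI1 hi)).2
      rw [h2]
      refine le_trans ?_ (single_le_sum (f := fun a : Fin j → Bool =>
        ∑ I ∈ powersetCard (τ + 1) (univ : Finset (Fin t)), ∏ i ∈ I, ind (ad ι (X i) = a))
        (fun b _ => sum_nonneg fun I _ => prod_nonneg fun i _ => ind_nonneg _) (mem_univ a))
      exact single_le_sum (f := fun I : Finset (Fin t) => ∏ i ∈ I, ind (ad ι (X i) = a))
        (fun I _ => prod_nonneg fun i _ => ind_nonneg _)
        (mem_powersetCard.2 ⟨subset_univ I, hI2⟩)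
    · rw [ind_false h]
      exact sum_nonneg fun b _ => sum_nonneg fun I _ => prod_nonneg fun i _ => ind_nonneg _
  refine (av_mono h1).trans ?_
  rw [av_sum]
  have h2 : ∀ a : Fin j → Bool, av (fun X : Fin t → Fin n → Bool =>
      ∑ I ∈ powersetCard (τ + 1) (univ : Finset (Fin t)),
        ∏ i ∈ I, (fun (_ : Fin t) (x : Fin n → Bool) => ind (ad ι x = a)) i (X i))
      = (t.choose (τ + 1) : ℝ) * (1 / 2) ^ (j * (τ + 1)) := by
    intro a
    rw [av_sum]
    have h3 : ∀ I ∈ powersetCard (τ + 1) (univ : Finset (Fin t)),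
        av (fun X : Fin t → Fin n → Bool =>
          ∏ i ∈ I, (fun (_ : Fin t) (x : Fin n → Bool) => ind (ad ι x = a)) i (X i))
        = (1 / 2) ^ (j * (τ + 1)) := by
      intro I hI
      rw [av_pi_subset I (fun (_ : Fin t) (x : Fin n → Bool) => ind (ad ι x = a))]
      rw [prod_congr rfl fun i _ => av_ad ι hι a, prod_const, (mem_powersetCard.1 hI).2,
        ← pow_mul]
    rw [sum_congr rfl h3, sum_const, card_powersetCard, card_univ, Fintype.card_fin,
      nsmul_eq_mul]
  rw [sum_congr rfl fun a _ => h2 a, sum_const, card_univ, Fintype.card_fun, Fintype.card_fin,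
    Fintype.card_bool, nsmul_eq_mul]
  push_cast
  exact le_refl _

end Pool.Agent.Q126.BD
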