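import Pool.Agent.Q126.BL.Bat

/-!
The level inequality for columns of bits that are indexed by an arbitrary type.
-/

set_option autoImplicit false

namespace Pool.Agent.Q126.BD

open Finset Pool.Agent.TH661.LPX Pool.Agent.Y636.CL Pool.Agent.Q126.BL

section columns

variable {I : Type*} [Fintype I] [DecidableEq I] {J : Type*} [Fintype J] [DecidableEq J]

/-- The columns met by a set of bits. -/
def tcj (C : J → Finset I) (T : Finset I) : Finset J :=
  univ.filter fun j => ¬ Disjoint T (C j)

/-- The sets of bits which meet, among the columns in `K`, exactly the columns in `S`. -/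
def clj (C : J → Finset I) (K S : Finset J) : Finset (Finset I) :=
  univ.filter fun T => K.filter (fun j => ¬ Disjoint T (C j)) = S

omit [Fintype J] in
/-- The level inequality for columns. -/
theorem sum_level_j (C : J → Finset I) {ρ : ℝ} (h0 : 0 ≤ ρ) (h1 : ρ ≤ 1)
    (F : (I → Bool) → ℝ) (K : Finset J) :
    ∑ S ∈ K.powerset, ρ ^ S.card * nn ρ (pr (clj C K S) F) ≤ nn ρ F := by
  induction K using Finset.induction_on with
  | empty =>
    rw [powerset_empty, sum_singleton, card_empty, pow_zero, one_mul]
    have : clj C (∅ : Finset J) ∅ = univ := by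
      ext T
      simp [clj]
    rw [this, pr_univ]
  | insert a K ha ih =>
    rw [sum_powerset_insert ha, ← sum_add_distrib]
    refine le_trans (sum_le_sum fun S hS => ?_) ih
    have hSJ := mem_powerset.1 hS
    have haS : a ∉ S := fun h => ha (hSJ h)
    have hfi : ∀ T : Finset I, (insert a K).filter (fun j => ¬ Disjoint T (C j))
        = if Disjoint T (C a) then K.filter (fun j => ¬ Disjoint T (C j))
          else insert a (K.filter (fun j => ¬ Disjoint T (C j))) := by
      intro T
      rw [filter_insert]
      by_cases h2 : Disjoint T (C a)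
      · rw [if_pos h2, if_neg (not_not.2 h2)]
      · rw [if_neg h2, if_pos h2]
    have ha1 : ∀ T : Finset I, a ∉ K.filter (fun j => ¬ Disjoint T (C j)) :=
      fun T h3 => ha (mem_filter.1 h3).1
    have e1 : clj C (insert a K) S = (clj C K S).filter fun T => Disjoint T (C a) := by
      ext T
      simp only [clj, mem_filter, mem_univ, true_and]
      rw [hfi]
      by_cases h2 : Disjoint T (C a)
      · rw [if_pos h2]
        exact ⟨fun h => ⟨h, h2⟩, fun h => h.1⟩
      · rw [if_neg h2]
        refine ⟨fun h => ?_, fun h => absurd h.2 h2⟩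
        have : a ∈ S := by rw [← h]; exact mem_insert_self _ _
        exact absurd this haS
    have e2 : clj C (insert a K) (insert a S) = (clj C K S).filter fun T => ¬ Disjoint T (C a) := by
      ext T
      simp only [clj, mem_filter, mem_univ, true_and]
      rw [hfi]
      by_cases h2 : Disjoint T (C a)
      · rw [if_pos h2]
        refine ⟨fun h => ?_, fun h => absurd h2 h.2⟩
        have : a ∈ K.filter (fun j => ¬ Disjoint T (C j)) := by rw [h]; exact mem_insert_self _ _
        exact absurd this (ha1 T)
      · rw [if_neg h2]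
        refine ⟨fun h => ⟨?_, h2⟩, fun h => by rw [h.1]⟩
        rw [← erase_insert (ha1 T), h, erase_insert haS]
    have h2 := one_step h0 h1 (avc (C a)) (avc_lin (C a)) (avc_idem (C a)) (avc_contr h0 (C a))
      (pr (clj C K S) F)
    rw [sub_avc_pr, avc_pr] at h2
    rw [e1, e2, card_insert_of_notMem haS, pow_succ]
    have h3 := mul_le_mul_of_nonneg_left h2 (pow_nonneg h0 S.card)
    refine le_trans (le_of_eq ?_) h3
    ring

/-- A Fourier coefficient is bounded by the part of the function that belongs to its columns. -/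
theorem sq_fI_le (C : J → Finset I) {ρ : ℝ} (h0 : 0 ≤ ρ) (F : (I → Bool) → ℝ) (T : Finset I) :
    fI F T ^ 2 ≤ nn ρ (pr (clj C univ (tcj C T)) F) := by
  have h1 : av (fun x => pr (clj C univ (tcj C T)) F x * ch T x) = fI F T := by
    rw [av_pr_mul]
    have h2 : ∀ T' ∈ clj C univ (tcj C T), fI F T' * fI (ch T) T'
        = if T' = T then fI F T else 0 := by
      intro T' _
      split_ifs with h
      · rw [h]
        have h3 : fI (ch T) T = 1 := by
          unfold fI ch
          have h4 : ∀ x : I → Bool, (∏ p ∈ T, sg (x p)) * ∏ p ∈ T, sg (x p) = 1 := by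
            intro x
            rw [← prod_mul_distrib]
            exact prod_eq_one fun p _ => sg_mul_self _
          rw [av_congr h4, av_const]
        rw [h3, mul_one]
      · by_contra hne
        have h3 : fI (ch T) T' ≠ 0 := fun h4 => hne (by rw [h4, mul_zero])
        exact h (fI_ch h3).symm
    rw [sum_congr rfl h2, sum_ite_eq' _ T]
    rw [if_pos]
    exact mem_filter.2 ⟨mem_univ _, rfl⟩
  have h2 : |fI F T| ≤ av fun x => |pr (clj C univ (tcj C T)) F x| := by
    rw [← h1]
    have hcard : (0 : ℝ) < Fintype.card (I → Bool) := by exact_mod_cast Fintype.card_pos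
    unfold av
    rw [abs_div, abs_of_pos hcard]
    refine div_le_div_of_nonneg_right ((abs_sum_le_sum_abs _ _).trans
      (sum_le_sum fun x _ => ?_)) hcard.le
    rw [abs_mul]
    have h3 : |ch T x| = 1 := by
      unfold ch
      rcases prod_induction (fun p => sg (x p)) (fun z : ℝ => z = 1 ∨ z = -1) (s := T) (by
        rintro a b (rfl | rfl) (rfl | rfl) <;> norm_num) (Or.inl rfl)
        (fun p _ => sg_cases (x p)) with h | h <;> rw [h] <;> norm_num
    rw [h3, mul_one]
  refine le_trans ?_ (sq_av_abs_le h0 _)
  rw [← sq_abs]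
  exact pow_le_pow_left₀ (abs_nonneg _) h2 2

/-- The level inequality. -/
theorem level_card (C : J → Finset I) {ρ : ℝ} (h0 : 0 < ρ) (h1 : ρ ≤ 1)
    (F : (I → Bool) → ℝ) (l : ℕ) :
    ∑ S ∈ powersetCard l (univ : Finset J), nn ρ (pr (clj C univ S) F) ≤ ρ⁻¹ ^ l * nn ρ F := by
  have h2 := sum_level_j C h0.le h1 F univ
  have h3 : ∑ S ∈ powersetCard l (univ : Finset J), ρ ^ l * nn ρ (pr (clj C univ S) F)
      ≤ ∑ S ∈ (univ : Finset J).powerset, ρ ^ S.card * nn ρ (pr (clj C univ S) F) := by
    have h4 : ∑ S ∈ powersetCard l (univ : Finset J), ρ ^ l * nn ρ (pr (clj C univ S) F)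
        = ∑ S ∈ powersetCard l (univ : Finset J),
          ρ ^ S.card * nn ρ (pr (clj C univ S) F) := by
      refine sum_congr rfl fun S hS => ?_
      rw [(mem_powersetCard.1 hS).2]
    rw [h4]
    refine sum_le_sum_of_subset_of_nonneg ?_ fun S _ _ =>
      mul_nonneg (pow_nonneg h0.le _) (nn_nonneg _ _)
    intro S hS
    exact mem_powerset.2 (mem_powersetCard.1 hS).1
  rw [← mul_sum] at h3
  have h5 := h3.trans h2
  rw [inv_pow, inv_mul_eq_div, le_div_iff₀ (by positivity), mul_comm]
  exact h5

end columns

end Pool.Agent.Q126.BD
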