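import Pool.Agent.Q126.BD.Leaf
import Pool.Agent.Q126.BD.Defs
import Pool.Agent.Q126.BL.Tilt
import Pool.Agent.Y636.CL.Low

/-!
The lower bound for learning DNF formulas with batches of examples.
-/

set_option autoImplicit false

namespace Pool.Agent.Q126.BD

open Finset Pool.Agent.W964.Wd Pool.Agent.Y636.CL Pool.Agent.Q126.BL

variable {n t j k : ℕ}

theorem card_batches (N : ℕ) : (Fintype.card (Fin N → Fin t → Fin n → Bool) : ℝ)
    = ((2 ^ n) ^ t) ^ N := by
  rw [Fintype.card_fun, Fintype.card_fun, Fintype.card_fun, Fintype.card_fin, Fintype.card_fin,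
    Fintype.card_fin, Fintype.card_bool]
  push_cast
  rfl

open Classical in
/-- Typical batches. -/
theorem batchLearn_le {N : ℕ} (ι : Fin j → Fin n) (τ : ℕ)
    (A : (Fin N → Fin t → Ex n) → Hy n) (f : Hy n) (η : ℝ) :
    batchLearn A f η ≤ ((univ.filter fun X : Fin N → Fin t → Fin n → Bool =>
        err f (A fun i j => (X i j, f (X i j))) ≤ η ∧ ∀ i, Typ ι τ (X i)).card : ℝ)
          / ((2 ^ n) ^ t) ^ N
      + N * Pool.Agent.TH661.LPX.av (fun X : Fin t → Fin n → Bool =>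
          Pool.Agent.TH661.LPX.ind (¬ Typ ι τ X)) := by
  have h1 : batchLearn A f η = Pool.Agent.TH661.LPX.av fun X : Fin N → Fin t → Fin n → Bool =>
      Pool.Agent.TH661.LPX.ind (err f (A fun i j => (X i j, f (X i j))) ≤ η) := by
    unfold batchLearn Pool.Agent.TH661.LPX.av Pool.Agent.TH661.LPX.ind
    rw [card_batches, sum_boole]
  have h2 : ((univ.filter fun X : Fin N → Fin t → Fin n → Bool =>
        err f (A fun i j => (X i j, f (X i j))) ≤ η ∧ ∀ i, Typ ι τ (X i)).card : ℝ)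
          / ((2 ^ n) ^ t) ^ N
      = Pool.Agent.TH661.LPX.av fun X : Fin N → Fin t → Fin n → Bool =>
      Pool.Agent.TH661.LPX.ind (err f (A fun i j => (X i j, f (X i j))) ≤ η ∧
        ∀ i, Typ ι τ (X i)) := by
    unfold Pool.Agent.TH661.LPX.av Pool.Agent.TH661.LPX.ind
    rw [card_batches, ← sum_boole]
    congr 1
    refine sum_congr rfl fun X _ => ?_
    by_cases h : err f (A fun i j => (X i j, f (X i j))) ≤ η ∧ ∀ i, Typ ι τ (X i)
    · rw [if_pos h]
      exact (if_pos h).symm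
    · rw [if_neg h]
      exact (if_neg h).symm
  have h3 : ∀ i : Fin N, Pool.Agent.TH661.LPX.av (fun X : Fin N → Fin t → Fin n → Bool =>
      Pool.Agent.TH661.LPX.ind (¬ Typ ι τ (X i)))
      = Pool.Agent.TH661.LPX.av (fun X : Fin t → Fin n → Bool =>
          Pool.Agent.TH661.LPX.ind (¬ Typ ι τ X)) := by
    intro i
    have h4 := Pool.Agent.TH661.LPX.av_pi_subset ({i} : Finset (Fin N))
      (fun (_ : Fin N) (x : Fin t → Fin n → Bool) => Pool.Agent.TH661.LPX.ind (¬ Typ ι τ x))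
    simp only [prod_singleton] at h4
    exact h4
  rw [h1, h2]
  have h4 : (N : ℝ) * Pool.Agent.TH661.LPX.av (fun X : Fin t → Fin n → Bool =>
          Pool.Agent.TH661.LPX.ind (¬ Typ ι τ X))
      = Pool.Agent.TH661.LPX.av (fun X : Fin N → Fin t → Fin n → Bool =>
        ∑ i, Pool.Agent.TH661.LPX.ind (¬ Typ ι τ (X i))) := by
    rw [Pool.Agent.TH661.LPX.av_sum, sum_congr rfl fun i _ => h3 i, sum_const, card_univ,
      Fintype.card_fin, nsmul_eq_mul]
  rw [h4, ← Pool.Agent.TH661.LPX.av_add]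
  refine Pool.Agent.TH661.LPX.av_mono fun X => ?_
  by_cases hE : err f (A fun i j => (X i j, f (X i j))) ≤ η
  · by_cases hT : ∀ i, Typ ι τ (X i)
    · rw [Pool.Agent.TH661.LPX.ind_true hE, Pool.Agent.TH661.LPX.ind_true ⟨hE, hT⟩]
      have : 0 ≤ ∑ i, Pool.Agent.TH661.LPX.ind (¬ Typ ι τ (X i)) :=
        sum_nonneg fun i _ => Pool.Agent.TH661.LPX.ind_nonneg _
      linarith
    · push Not at hT
      obtain ⟨i, hi⟩ := hT
      have h5 : (1 : ℝ) ≤ ∑ i, Pool.Agent.TH661.LPX.ind (¬ Typ ι τ (X i)) := by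
        rw [← Pool.Agent.TH661.LPX.ind_true hi]
        exact single_le_sum (f := fun i => Pool.Agent.TH661.LPX.ind (¬ Typ ι τ (X i)))
          (fun _ _ => Pool.Agent.TH661.LPX.ind_nonneg _) (mem_univ i)
      have h6 := Pool.Agent.TH661.LPX.ind_le_one (err f (A fun i j => (X i j, f (X i j))) ≤ η)
      have h7 := Pool.Agent.TH661.LPX.ind_nonneg
        (err f (A fun i j => (X i j, f (X i j))) ≤ η ∧ ∀ i, Typ ι τ (X i))
      linarith
  · rw [Pool.Agent.TH661.LPX.ind_false hE]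
    have h5 : 0 ≤ ∑ i, Pool.Agent.TH661.LPX.ind (¬ Typ ι τ (X i)) :=
      sum_nonneg fun i _ => Pool.Agent.TH661.LPX.ind_nonneg _
    have h7 := Pool.Agent.TH661.LPX.ind_nonneg
        (err f (A fun i j => (X i j, f (X i j))) ≤ η ∧ ∀ i, Typ ι τ (X i))
    linarith

open Classical in
/-- The success probability on typical batches is a sum over the leaves of the protocol. -/
theorem typLearn_eq {N : ℕ} (ι : Fin j → Fin n) (τ : ℕ)
    (T : Prot N (Fin t → Ex n) ((Fin n → Bool) → Bool)) (f : Hy n) (η : ℝ) :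
    ((univ.filter fun X : Fin N → Fin t → Fin n → Bool =>
        err f (T.run fun i j => (X i j, f (X i j))) ≤ η ∧ ∀ i, Typ ι τ (X i)).card : ℝ)
          / ((2 ^ n) ^ t) ^ N
      = leaf (fun h U => (if err f h ≤ η then (1 : ℝ) else 0) *
        pm (fun e => wt ι τ e * (1 + ll f e)) U) T fun _ => univ := by
  rw [leaf_run, ← sum_boole, sum_div]
  refine sum_of_injOn (fun X i j => (X i j, f (X i j))) ?_ ?_ ?_ ?_
  · intro X _ Y _ hXY
    funext i j
    have := congrFun (congrFun hXY i) j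
    exact (Prod.ext_iff.1 this).1
  · intro X _
    simp
  · intro e _ he
    obtain ⟨i, j, hij⟩ : ∃ i j, (e i j).2 ≠ f (e i j).1 := by
      by_contra hcon
      push Not at hcon
      refine he ⟨fun i j => (e i j).1, by simp, ?_⟩
      funext i j
      exact Prod.ext rfl (hcon i j).symm
    have h1 : pf f (e i j) = -1 := by
      unfold pf
      revert hij
      unfold Pool.Agent.TH661.LPX.sg
      cases (e i j).2 <;> cases f (e i j).1 <;> simp
    have h2 : 1 + ll f (e i) = 0 := by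
      unfold ll
      rw [prod_eq_zero (mem_univ j) (by rw [h1]; ring)]
      ring
    rw [prod_eq_zero (mem_univ i) (by rw [h2, mul_zero]), zero_mul]
  · intro X _
    have h1 : ∀ i, wt ι τ (fun j => (X i j, f (X i j))) *
        (1 + ll f fun j => (X i j, f (X i j)))
        = if Typ ι τ (X i) then ((2 ^ n) ^ t)⁻¹ else 0 := by
      intro i
      have h2 : ∀ j, 1 + pf f (X i j, f (X i j)) = 2 := by
        intro j
        have : pf f (X i j, f (X i j)) = 1 := by
          unfold pf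
          exact Pool.Agent.TH661.LPX.sg_mul_self _
        rw [this]
        norm_num
      have h3 : 1 + ll f (fun j => (X i j, f (X i j))) = 2 ^ t := by
        unfold ll
        rw [prod_congr rfl fun j _ => h2 j, prod_const, card_univ, Fintype.card_fin]
        ring
      rw [h3]
      unfold wt
      have h6 : (fun j => ((fun j => (X i j, f (X i j))) j : Ex n).1) = X i := rfl
      rw [h6]
      split_ifs
      · unfold bw
        rw [mul_pow]
        have h4 : ((2 : ℝ) ^ n) ^ t ≠ 0 := by positivity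
        have h5 : (2 : ℝ) ^ t ≠ 0 := by positivity
        field_simp
      · rw [zero_mul]
    rw [prod_congr rfl fun i _ => h1 i]
    by_cases hT : ∀ i, Typ ι τ (X i)
    · have h7 : ∀ i : Fin N, (if Typ ι τ (X i) then (((2 : ℝ) ^ n) ^ t)⁻¹ else 0)
          = ((2 ^ n) ^ t)⁻¹ := fun i => if_pos (hT i)
      rw [prod_congr rfl fun i _ => h7 i, prod_const, card_univ, Fintype.card_fin]
      by_cases hE : err f (T.run fun i j => (X i j, f (X i j))) ≤ η
      · rw [if_pos ⟨hE, hT⟩, if_pos hE, inv_pow, mul_one, one_div]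
      · rw [if_neg fun h => hE h.1, if_neg hE]
        simp
    · rw [if_neg fun h => hT h.2]
      push Not at hT
      obtain ⟨i, hi⟩ := hT
      rw [prod_eq_zero (mem_univ i) (if_neg hi)]
      simp

/-- The sum over the targets of the squared biases of one side of a rectangle. -/
theorem sum_bt_wt_le {N : ℕ} {ρ : ℝ} (h0 : 0 < ρ) (h1 : ρ ≤ 1) (ι : Fin j → Fin n) (τ : ℕ)
    (SS : Finset (Finset (Fin n))) (hne : SS.Nonempty) (hSS : ∀ S ∈ SS, S.card = k)
    (hι : ∀ S ∈ SS, ∀ h, ι h ∉ S)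
    (hL : (2 ^ j * 2 ^ τ) ^ 2 * (ρ⁻¹ ^ k / SS.card) ≤ 1) (U : Fin N → Finset (Fin t → Ex n))
    (i : Fin N) :
    ∑ S ∈ Fintype.piFinset (fun _ : Fin j → Bool => SS),
        pm (wt ι τ) U * bt (wt ι τ) (ll (tgA ι S)) (U i) ^ 2
      ≤ 4 * (2 ^ j * 2 ^ τ) ^ 2 * (ρ⁻¹ ^ k / SS.card) * (SS.card : ℝ) ^ (2 ^ j)
        * (rs (wt ι τ) U i * ms (wt ι τ) (U i) ^ (2 / (1 + ρ) - 1)) := by
  have hm := ms_nonneg (w := wt ι τ) (wt_nonneg ι τ) (U i)
  have hR := rs_nonneg (w := wt ι τ) (wt_nonneg ι τ) U i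
  rcases hm.eq_or_lt with h | h
  · have : ∀ S ∈ Fintype.piFinset (fun _ : Fin j → Bool => SS),
        pm (wt ι τ) U * bt (wt ι τ) (ll (tgA ι S)) (U i) ^ 2 = 0 := by
      intro S _
      rw [pm_eq _ U i, ← h]
      ring
    rw [sum_congr rfl this, sum_const_zero]
    positivity
  · have hl := typ_le h0 h1 ι τ SS hne hSS hι hL (U i)
    have h2 : ∑ S ∈ Fintype.piFinset (fun _ : Fin j → Bool => SS),
          pm (wt ι τ) U * bt (wt ι τ) (ll (tgA ι S)) (U i) ^ 2
        = rs (wt ι τ) U i / ms (wt ι τ) (U i) *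
          ∑ S ∈ Fintype.piFinset (fun _ : Fin j → Bool => SS),
            ms (fun e => wt ι τ e * ll (tgA ι S) e) (U i) ^ 2 := by
      rw [mul_sum]
      refine sum_congr rfl fun κ _ => ?_
      rw [pm_eq _ U i]
      unfold bt
      field_simp
    rw [h2]
    refine (mul_le_mul_of_nonneg_left hl (by positivity)).trans (le_of_eq ?_)
    rw [Real.rpow_sub h, Real.rpow_one]
    field_simp

open Classical in
/-- The sum of the success probabilities over all targets. -/
theorem sum_learn_le {N b : ℕ} {ρ : ℝ} (h0 : 0 < ρ) (h1 : ρ ≤ 1) (ι : Fin j → Fin n)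
    (τ : ℕ) (SS : Finset (Finset (Fin n))) (hne : SS.Nonempty)
    (hSS : ∀ S ∈ SS, S.card = k) (hι : ∀ S ∈ SS, ∀ h, ι h ∉ S)
    (hL : (2 ^ j * 2 ^ τ) ^ 2 * (ρ⁻¹ ^ k / SS.card) ≤ 1)
    (T : Prot N (Fin t → Ex n) ((Fin n → Bool) → Bool)) (hb : ∀ i, T.load i ≤ b)
    {γ : ℝ} (hγ : 0 < γ) :
    ∑ S ∈ Fintype.piFinset (fun _ : Fin j → Bool => SS), batchLearn T.run (tgA ι S) (1 / 2 - γ)
      ≤ Real.exp 1 * (2 ^ j / (4 * γ ^ 2) * ((SS.card : ℝ) ^ (2 ^ j) / SS.card))
        + Real.exp 2 * (3 * (N * (4 * (2 ^ j * 2 ^ τ) ^ 2 * (ρ⁻¹ ^ k / SS.card) *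
          (SS.card : ℝ) ^ (2 ^ j) * 2 ^ (2 * ρ * b))))
        + (SS.card : ℝ) ^ (2 ^ j) * (N * Pool.Agent.TH661.LPX.av
          (fun X : Fin t → Fin n → Bool => Pool.Agent.TH661.LPX.ind (¬ Typ ι τ X))) := by
  have hSp : (0 : ℝ) < SS.card := by exact_mod_cast hne.card_pos
  set P := Fintype.piFinset (fun _ : Fin j → Bool => SS) with hP
  have hPc : (P.card : ℝ) = (SS.card : ℝ) ^ (2 ^ j) := by
    rw [hP, Fintype.card_piFinset, prod_const, card_univ, Fintype.card_fun, Fintype.card_fin,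
      Fintype.card_bool]
    push_cast
    rfl
  let U : Fin N → Finset (Fin t → Ex n) := fun _ => univ
  have hSι : ∀ S ∈ P, ∀ a, ∀ h, ι h ∉ S a := fun S hS a h =>
    hι _ (Fintype.mem_piFinset.1 hS a) h
  have hbt : ∀ S ∈ P, ∀ i, bt (wt ι τ) (ll (tgA ι S)) (U i) = 0 := fun S hS i =>
    bt_wt_univ ι τ S (hSι S hS)
  have hz : ∀ S ∈ P, zz (wt ι τ) (ll (tgA ι S)) U = 0 := fun S hS => by
    unfold zz
    exact sum_eq_zero fun i _ => hbt S hS i
  have hpm : pm (wt ι τ) U ≤ 1 := by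
    unfold pm
    exact prod_le_one (fun i _ => ms_nonneg (wt_nonneg ι τ) _) fun i _ => ms_wt_univ_le ι τ
  have hrs : ∀ i, rs (wt ι τ) U i ≤ 1 := fun i => by
    unfold rs
    exact prod_le_one (fun i _ => ms_nonneg (wt_nonneg ι τ) _) fun i _ => ms_wt_univ_le ι τ
  have step1 : ∀ S ∈ P, batchLearn T.run (tgA ι S) (1 / 2 - γ)
      ≤ (Real.exp 1 * leaf (fun h U =>
          (if err (tgA ι S) h ≤ 1 / 2 - γ then (1 : ℝ) else 0) * pm (wt ι τ) U) T U
        + Real.exp 2 * (3 * ∑ i, leaf (fun _ U =>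
          pm (wt ι τ) U * bt (wt ι τ) (ll (tgA ι S)) (U i) ^ 2) T U))
        + N * Pool.Agent.TH661.LPX.av
          (fun X : Fin t → Fin n → Bool => Pool.Agent.TH661.LPX.ind (¬ Typ ι τ X)) := by
    intro S hS
    refine (batchLearn_le ι τ T.run (tgA ι S) (1 / 2 - γ)).trans ?_
    refine add_le_add ?_ le_rfl
    rw [typLearn_eq]
    have h2 := tilt_le' (w := wt ι τ) (φ := ll (tgA ι S)) (wt_nonneg ι τ) (ll_ge _)
      (fun h => if err (tgA ι S) h ≤ 1 / 2 - γ then 1 else 0)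
      (fun h => by split_ifs <;> norm_num) (fun h => by split_ifs <;> norm_num) T U
      (fun h => by rw [hz S hS] at h; norm_num at h)
    refine h2.trans (le_of_eq ?_)
    congr 2
    exact leaf_vv (wt_nonneg ι τ) T U (hbt S hS)
  refine (sum_le_sum step1).trans ?_
  rw [sum_add_distrib, sum_add_distrib, ← mul_sum, ← mul_sum, ← mul_sum]
  refine add_le_add (add_le_add ?_ ?_) ?_
  · rw [← leaf_sum]
    have h2 : leaf (fun h U => ∑ S ∈ P,
          (if err (tgA ι S) h ≤ 1 / 2 - γ then (1 : ℝ) else 0) * pm (wt ι τ) U) T U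
        ≤ leaf (fun _ U => (2 ^ j / (4 * γ ^ 2) * ((SS.card : ℝ) ^ (2 ^ j) / SS.card)) *
          pm (wt ι τ) U) T U := by
      refine leaf_mono (fun h U => ?_) _ _
      rw [← sum_mul]
      refine mul_le_mul_of_nonneg_right ?_ (pm_nonneg (wt_nonneg ι τ) U)
      exact count_goodA ι h hγ SS hne
    rw [leaf_mul, leaf_pm] at h2
    refine mul_le_mul_of_nonneg_left (h2.trans ?_) (Real.exp_pos 1).le
    exact mul_le_of_le_one_right (by positivity) hpm
  · refine mul_le_mul_of_nonneg_left (mul_le_mul_of_nonneg_left ?_ (by norm_num)) (by positivity)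
    rw [sum_comm]
    have h2 : ∀ i : Fin N, ∑ S ∈ P,
        leaf (fun _ U => pm (wt ι τ) U * bt (wt ι τ) (ll (tgA ι S)) (U i) ^ 2) T U
        ≤ 4 * (2 ^ j * 2 ^ τ) ^ 2 * (ρ⁻¹ ^ k / SS.card) *
          (SS.card : ℝ) ^ (2 ^ j) * 2 ^ (2 * ρ * b) := by
      intro i
      rw [← leaf_sum]
      refine (leaf_mono (fun _ U => sum_bt_wt_le h0 h1 ι τ SS hne hSS hι hL U i) _ _).trans ?_
      rw [leaf_mul]
      refine mul_le_mul_of_nonneg_left ?_ (by positivity)
      have ht0 : 0 ≤ 2 / (1 + ρ) - 1 := by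
        rw [sub_nonneg, le_div_iff₀ (by linarith)]
        linarith
      have ht1 : 2 / (1 + ρ) - 1 ≤ 1 := by
        have : 2 / (1 + ρ) ≤ 2 := by
          rw [div_le_iff₀ (by linarith)]
          linarith
        linarith
      refine (leaf_rpow_le (wt_nonneg ι τ) ht0 ht1 i T U).trans ?_
      have h5 : rs (wt ι τ) U i * ms (wt ι τ) (U i) ^ (2 / (1 + ρ) - 1) ≤ 1 := by
        refine mul_le_one₀ (hrs i) (Real.rpow_nonneg (ms_nonneg (wt_nonneg ι τ) _) _) ?_
        exact Real.rpow_le_one (ms_nonneg (wt_nonneg ι τ) _) (ms_wt_univ_le ι τ) ht0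
      refine (mul_le_of_le_one_right (by positivity) h5).trans ?_
      refine Real.rpow_le_rpow_of_exponent_le (by norm_num) ?_
      have h3 : 1 - (2 / (1 + ρ) - 1) ≤ 2 * ρ := by
        have : 2 - 2 * ρ ≤ 2 / (1 + ρ) := by
          rw [le_div_iff₀ (by linarith)]
          nlinarith
        linarith
      have h4 : ((T.load i : ℕ) : ℝ) ≤ b := by exact_mod_cast hb i
      exact mul_le_mul h3 h4 (Nat.cast_nonneg _) (by positivity)
    refine (sum_le_sum fun i _ => h2 i).trans (le_of_eq ?_)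
    rw [sum_const, card_univ, Fintype.card_fin, nsmul_eq_mul]
  · rw [sum_const, nsmul_eq_mul, hPc]

end Pool.Agent.Q126.BD
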