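import Pool.Agent.Q126.BD.Fib
import Pool.Agent.Y636.CL.Four

/-!
Batches of examples of a function that is a parity on every leaf of an addressing function: typical
batches.
-/

set_option autoImplicit false

namespace Pool.Agent.Q126.BD

open Finset Pool.Agent.TH661.LPX Pool.Agent.Y636.CL Pool.Agent.Q126.BL

variable {n t j k : ℕ}

/-- The address of a point. -/
def ad (ι : Fin j → Fin n) (x : Fin n → Bool) : Fin j → Bool := fun h => x (ι h)

/-- The function that is the parity of the variables in `S a` if the address is `a`. -/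
noncomputable def tgA (ι : Fin j → Fin n) (S : (Fin j → Bool) → Finset (Fin n)) : Hy n :=
  fun x => tg (S (ad ι x)) x

/-- No address is too frequent in the batch. -/
def Typ (ι : Fin j → Fin n) (τ : ℕ) (X : Fin t → Fin n → Bool) : Prop :=
  ∀ a, (univ.filter fun i => ad ι (X i) = a).card ≤ τ

open Classical in
/-- The weight of a typical batch. -/
noncomputable def wt (ι : Fin j → Fin n) (τ : ℕ) (e : Fin t → Ex n) : ℝ :=
  if Typ ι τ (fun i => (e i).1) then bw n t e else 0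

theorem wt_nonneg (ι : Fin j → Fin n) (τ : ℕ) (e : Fin t → Ex n) : 0 ≤ wt ι τ e := by
  unfold wt
  split_ifs
  · exact bw_nonneg e
  · exact le_rfl

open Classical in
/-- The indicator function of the typical batches in a set. -/
noncomputable def FA (ι : Fin j → Fin n) (τ : ℕ) (A : Finset (Fin t → Ex n))
    (z : Bi n t → Bool) : ℝ :=
  if tb n t z ∈ A ∧ Typ ι τ (fun i => (tb n t z i).1) then 1 else 0

theorem ms_wt (ι : Fin j → Fin n) (τ : ℕ) (A : Finset (Fin t → Ex n))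
    (φ : (Fin t → Ex n) → ℝ) :
    ms (fun e => wt ι τ e * φ e) A = av fun z : Bi n t → Bool => FA ι τ A z * φ (tb n t z) := by
  classical
  have h1 : ms (fun e => wt ι τ e * φ e) A
      = ms (fun e => bw n t e * ((if Typ ι τ (fun i => (e i).1) then 1 else 0) * φ e)) A := by
    unfold ms
    refine sum_congr rfl fun e _ => ?_
    show wt ι τ e * φ e = bw n t e * ((if Typ ι τ (fun i => (e i).1) then 1 else 0) * φ e)
    unfold wt
    split_ifs <;> ring
  rw [h1, ms_bw]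
  refine av_congr fun z => ?_
  unfold FA
  by_cases h2 : tb n t z ∈ A <;> by_cases h3 : Typ ι τ (fun i => (tb n t z i).1) <;>
    simp [h2, h3]

theorem ms_wt_one (ι : Fin j → Fin n) (τ : ℕ) (A : Finset (Fin t → Ex n)) :
    ms (wt ι τ) A = av fun z : Bi n t → Bool => FA ι τ A z := by
  have h1 := ms_wt ι τ A fun _ => 1
  simp only [mul_one] at h1
  exact h1

/-- The address bits of a batch. -/
def EA (ι : Fin j → Fin n) : Finset (Bi n t) := univ.filter fun p => ∃ h, p.2 = some (ι h)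

/-- The addresses in a batch. -/
def al (ι : Fin j → Fin n) (ω : Bi n t → Bool) (i : Fin t) : Fin j → Bool :=
  fun h => ω (i, some (ι h))

theorem ad_mix (ι : Fin j → Fin n) (ω' ω : Bi n t → Bool) (i : Fin t) :
    ad ι (tb n t (mix (EA ι) ω' ω) i).1 = al ι ω' i := by
  funext h
  show mix (EA ι) ω' ω (i, some (ι h)) = ω' (i, some (ι h))
  exact mix_mem (mem_filter.2 ⟨mem_univ _, h, rfl⟩)

theorem ll_mix (ι : Fin j → Fin n) (S : (Fin j → Bool) → Finset (Fin n))
    (hS : ∀ a, ∀ h, ι h ∉ S a) (ω' ω : Bi n t → Bool) :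
    ll (tgA ι S) (tb n t (mix (EA ι) ω' ω)) = psiA (al ι ω') S ω := by
  unfold ll psiA
  congr 1
  refine prod_congr rfl fun i _ => ?_
  congr 1
  unfold pf
  have h1 : Pool.Agent.TH661.LPX.sg (tgA ι S (tb n t (mix (EA ι) ω' ω) i).1)
      = ∏ v ∈ S (al ι ω' i), Pool.Agent.TH661.LPX.sg (ω (i, some v)) := by
    unfold tgA
    rw [ad_mix, sg_tg]
    refine prod_congr rfl fun v hv => ?_
    congr 1
    show mix (EA ι) ω' ω (i, some v) = ω (i, some v)
    refine mix_not_mem fun h => ?_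
    obtain ⟨h', hh'⟩ := (mem_filter.1 h).2
    have : v = ι h' := Option.some_injective _ hh'
    rw [this] at hv
    exact hS _ _ hv
  rw [h1]
  congr 2
  show mix (EA ι) ω' ω (i, none) = ω (i, none)
  refine mix_not_mem fun h => ?_
  obtain ⟨h', hh'⟩ := (mem_filter.1 h).2
  simp at hh'

/-- Averages are power means. -/
theorem av_rpow_le {Z : Type*} [Fintype Z] [Nonempty Z] {ρ : ℝ} (h0 : 0 ≤ ρ) (X : Z → ℝ)
    (hX : ∀ z, 0 ≤ X z) : av (fun z => X z ^ (1 / (1 + ρ))) ≤ (av X) ^ (1 / (1 + ρ)) := by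
  have hp : 0 < 1 + ρ := by linarith
  have hcard : (0 : ℝ) < Fintype.card Z := by exact_mod_cast Fintype.card_pos
  have h2 := Real.rpow_arith_mean_le_arith_mean_rpow (univ : Finset Z)
    (fun _ => 1 / (Fintype.card Z : ℝ)) (fun z => X z ^ (1 / (1 + ρ)))
    (fun _ _ => by positivity)
    (by rw [sum_const, card_univ, nsmul_eq_mul]; field_simp)
    (fun z _ => Real.rpow_nonneg (hX z) _) (p := 1 + ρ) (by linarith)
  have h3 : ∀ z, (X z ^ (1 / (1 + ρ))) ^ (1 + ρ) = X z := by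
    intro z
    rw [← Real.rpow_mul (hX z), one_div_mul_cancel hp.ne', Real.rpow_one]
  rw [← mul_sum, ← mul_sum, sum_congr rfl fun z _ => h3 z] at h2
  have e1 : 1 / (Fintype.card Z : ℝ) * ∑ w, X w ^ (1 / (1 + ρ))
      = av fun z => X z ^ (1 / (1 + ρ)) := by
    unfold av; ring
  have e2 : 1 / (Fintype.card Z : ℝ) * ∑ w, X w = av X := by
    unfold av; ring
  rw [e1, e2] at h2
  have hA : 0 ≤ av fun z => X z ^ (1 / (1 + ρ)) := av_nonneg fun z => Real.rpow_nonneg (hX z) _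
  have h4 := Real.rpow_le_rpow (Real.rpow_nonneg hA _) h2 (by positivity : 0 ≤ 1 / (1 + ρ))
  rw [← Real.rpow_mul hA, mul_one_div_cancel hp.ne', Real.rpow_one] at h4
  exact h4

/-- The inequality for typical batches. -/
theorem typ_le {ρ : ℝ} (h0 : 0 < ρ) (h1 : ρ ≤ 1) (ι : Fin j → Fin n) (τ : ℕ)
    (SS : Finset (Finset (Fin n))) (hne : SS.Nonempty) (hSS : ∀ S ∈ SS, S.card = k)
    (hι : ∀ S ∈ SS, ∀ h, ι h ∉ S)
    (hL : (2 ^ j * 2 ^ τ) ^ 2 * (ρ⁻¹ ^ k / SS.card) ≤ 1) (A : Finset (Fin t → Ex n)) :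
    ∑ S ∈ Fintype.piFinset (fun _ : Fin j → Bool => SS),
        ms (fun e => wt ι τ e * ll (tgA ι S) e) A ^ 2
      ≤ 4 * (2 ^ j * 2 ^ τ) ^ 2 * (ρ⁻¹ ^ k / SS.card) *
        (SS.card : ℝ) ^ (2 ^ j) * ms (wt ι τ) A ^ (2 / (1 + ρ)) := by
  classical
  have hcL : Fintype.card (Fin j → Bool) = 2 ^ j := by
    rw [Fintype.card_fun, Fintype.card_fin, Fintype.card_bool]
  have hcLR : ((Fintype.card (Fin j → Bool) : ℕ) : ℝ) = 2 ^ j := by
    rw [hcL]; push_cast; rfl
  have hSp : (0 : ℝ) < SS.card := by exact_mod_cast hne.card_pos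
  obtain ⟨K, hK⟩ : ∃ K : ℝ, K = 4 * (2 ^ j * 2 ^ τ) ^ 2 * (ρ⁻¹ ^ k / SS.card) *
        (SS.card : ℝ) ^ (2 ^ j) := ⟨_, rfl⟩
  have hK0 : 0 ≤ K := by rw [hK]; positivity
  rw [← hK]
  obtain ⟨Ω, hΩ⟩ : ∃ Ω : ℝ, Ω = Fintype.card (Bi n t → Bool) := ⟨_, rfl⟩
  have hΩp : 0 < Ω := by rw [hΩ]; exact_mod_cast Fintype.card_pos
  -- the fibres
  obtain ⟨F, hF⟩ : ∃ F : (Bi n t → Bool) → (Bi n t → Bool) → ℝ,
    F = fun ω' ω => FA ι τ A (mix (EA ι) ω' ω) := ⟨_, rfl⟩
  have hF01 : ∀ ω' ω, F ω' ω = 0 ∨ F ω' ω = 1 := by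
    intro ω' ω
    rw [hF]
    simp only
    unfold FA
    split_ifs
    · right; rfl
    · left; rfl
  have hF0 : ∀ ω' ω, 0 ≤ F ω' ω := by
    intro ω' ω
    rcases hF01 ω' ω with h | h <;> rw [h] <;> norm_num
  have hms : ∀ S ∈ Fintype.piFinset (fun _ : Fin j → Bool => SS),
      ms (fun e => wt ι τ e * ll (tgA ι S) e) A
        = av fun ω' => av fun ω => F ω' ω * psiA (al ι ω') S ω := by
    intro S hS
    rw [ms_wt, av_mix (EA ι)]
    refine av_congr fun ω' => av_congr fun ω => ?_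
    rw [ll_mix ι S (fun a h => hι _ (Fintype.mem_piFinset.1 hS a) h), hF]
  have hfib : ∀ ω', ∑ S ∈ Fintype.piFinset (fun _ : Fin j → Bool => SS),
      (av fun ω => F ω' ω * psiA (al ι ω') S ω) ^ 2 ≤ K * nn ρ (F ω') := by
    intro ω'
    by_cases htyp : ∀ a, (univ.filter fun i => al ι ω' i = a).card ≤ τ
    · have h2 := fibre_le h0 h1 (al ι ω') SS hne hSS τ htyp (by rw [hcLR]; exact hL) (F ω')
      rw [hcLR, hcL, ← hK] at h2
      exact h2
    · have hz : ∀ ω, F ω' ω = 0 := by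
        intro ω
        rw [hF]
        simp only
        unfold FA
        rw [if_neg]
        rintro ⟨_, h2⟩
        refine htyp fun a => ?_
        have h3 := h2 a
        simp only [ad_mix] at h3
        exact h3
      have h2 : ∀ S ∈ Fintype.piFinset (fun _ : Fin j → Bool => SS),
          (av fun ω => F ω' ω * psiA (al ι ω') S ω) ^ 2 = 0 := by
        intro S _
        have : ∀ ω, F ω' ω * psiA (al ι ω') S ω = 0 := fun ω => by rw [hz, zero_mul]
        rw [av_congr this, av_const]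
        norm_num
      rw [sum_congr rfl h2, sum_const_zero]
      exact mul_nonneg hK0 (nn_nonneg _ _)
  -- Minkowski
  have hmink := mink (univ : Finset (Bi n t → Bool))
    (Fintype.piFinset (fun _ : Fin j → Bool => SS))
    (fun ω' S => (av fun ω => F ω' ω * psiA (al ι ω') S ω) / Ω)
    (fun ω' => Real.sqrt (K * nn ρ (F ω')) / Ω) (fun ω' _ => by positivity) (by
      intro ω' _
      simp only [div_pow]
      rw [← sum_div, Real.sq_sqrt (mul_nonneg hK0 (nn_nonneg _ _))]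
      exact div_le_div_of_nonneg_right (hfib ω') (by positivity))
  have e1 : ∀ S ∈ Fintype.piFinset (fun _ : Fin j → Bool => SS),
      ms (fun e => wt ι τ e * ll (tgA ι S) e) A ^ 2
        = (∑ ω' : Bi n t → Bool, (av fun ω => F ω' ω * psiA (al ι ω') S ω) / Ω) ^ 2 := by
    intro S hS
    rw [hms S hS, ← sum_div, hΩ]
    rfl
  rw [sum_congr rfl e1]
  refine hmink.trans ?_
  have e2 : ∀ ω' : Bi n t → Bool, Real.sqrt (K * nn ρ (F ω')) / Ω
      = Real.sqrt K * ((av (F ω')) ^ (1 / (1 + ρ)) / Ω) := by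
    intro ω'
    rw [Real.sqrt_mul hK0, mul_div_assoc]
    congr 2
    unfold nn
    have h2 : av (fun z => |F ω' z| ^ (1 + ρ)) = av (F ω') := by
      refine av_congr fun z => ?_
      rcases hF01 ω' z with h | h
      · rw [h, abs_zero, Real.zero_rpow (by linarith)]
      · rw [h, abs_one, Real.one_rpow]
    rw [h2, Real.sqrt_eq_rpow, ← Real.rpow_mul (av_nonneg (hF0 ω'))]
    congr 1
    field_simp
  rw [sum_congr rfl fun ω' _ => e2 ω', ← mul_sum, mul_pow, Real.sq_sqrt hK0]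
  refine mul_le_mul_of_nonneg_left ?_ hK0
  have e3 : ∑ ω' : Bi n t → Bool, (av (F ω')) ^ (1 / (1 + ρ)) / Ω
      = av fun ω' => (av (F ω')) ^ (1 / (1 + ρ)) := by
    rw [← sum_div, hΩ]
    rfl
  rw [e3]
  have h2 := av_rpow_le h0.le (fun ω' => av (F ω')) (fun ω' => av_nonneg (hF0 ω'))
  have h3 : av (fun ω' => av (F ω')) = ms (wt ι τ) A := by
    rw [ms_wt_one, hF]
    exact (av_mix (EA ι) (FA ι τ A)).symm
  rw [h3] at h2
  have hms0 : 0 ≤ ms (wt ι τ) A := ms_nonneg (wt_nonneg ι τ) A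
  have h4 : 0 ≤ av fun ω' => (av (F ω')) ^ (1 / (1 + ρ)) :=
    av_nonneg fun ω' => Real.rpow_nonneg (av_nonneg (hF0 ω')) _
  refine (pow_le_pow_left₀ h4 h2 2).trans (le_of_eq ?_)
  rw [← Real.rpow_natCast, ← Real.rpow_mul hms0]
  congr 1
  push_cast
  ring

theorem ms_wt_univ_le (ι : Fin j → Fin n) (τ : ℕ) :
    ms (wt ι τ) (univ : Finset (Fin t → Ex n)) ≤ 1 := by
  rw [ms_wt_one]
  refine av_le_const fun z => ?_
  unfold FA
  split_ifs <;> norm_num

theorem bt_wt_univ (ι : Fin j → Fin n) (τ : ℕ) (S : (Fin j → Bool) → Finset (Fin n))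
    (hS : ∀ a, ∀ h, ι h ∉ S a) :
    bt (wt ι τ) (ll (tgA ι S)) (univ : Finset (Fin t → Ex n)) = 0 := by
  classical
  unfold bt
  rw [ms_wt, av_mix (EA ι)]
  have h1 : ∀ ω' : Bi n t → Bool, av (fun ω => FA ι τ univ (mix (EA ι) ω' ω) *
      ll (tgA ι S) (tb n t (mix (EA ι) ω' ω))) = 0 := by
    intro ω'
    have h2 : ∀ ω, FA ι τ univ (mix (EA ι) ω' ω) * ll (tgA ι S) (tb n t (mix (EA ι) ω' ω))
        = (if ∀ a, (univ.filter fun i => al ι ω' i = a).card ≤ τ then (1 : ℝ) else 0) *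
          ((fun _ => 1) ω * psiA (al ι ω') S ω) := by
      intro ω
      rw [ll_mix ι S hS, one_mul]
      congr 1
      unfold FA Typ
      simp only [ad_mix, mem_univ, true_and]
    rw [av_congr h2, av_mul_left, av_psiA]
    have h3 : ∑ I ∈ (univ : Finset (Finset (Fin t))).erase ∅,
        fI (fun _ : Bi n t → Bool => (1 : ℝ)) (TI (al ι ω') S I) = 0 := by
      refine sum_eq_zero fun I hI => fI_one ?_
      obtain ⟨i, hi⟩ := nonempty_iff_ne_empty.2 (ne_of_mem_erase hI)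
      refine nonempty_iff_ne_empty.1 ⟨(i, none), ?_⟩
      unfold TI
      rw [mem_filter]
      exact ⟨mem_univ _, hi, fun v hv => by simp at hv⟩
    rw [h3, mul_zero]
  rw [av_congr h1, av_const, zero_div]

end Pool.Agent.Q126.BD
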