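import Pool.Agent.Q126.BD.Defs
import Pool.Agent.Q126.BL.Up
import Pool.Agent.Y636.CL.Up

/-!
One large batch suffices to learn DNF formulas.
-/

set_option autoImplicit false

namespace Pool.Agent.Q126.BD

open Finset Pool.Agent.W964.Wd Pool.Agent.Y636.CL Pool.Agent.Q126.BL

variable {n t : ℕ}

/-- The terms refuted by a batch. -/
def Rt (e : Fin t → Ex n) : Set (Tm n) := {T | ∃ i, sat T (e i).1 ∧ (e i).2 = false}

/-- Few sets of few short terms. -/
abbrev Few (n s l : ℕ) := {D : Finset {T : Tm n // T.card ≤ l} // D.card ≤ s - 1}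

theorem card_Few (n s l : ℕ) : Fintype.card (Few n s l) ≤ ((2 * n + 1) ^ l + 1) ^ (s - 1) := by
  classical
  rw [Fintype.card_subtype]
  refine (card_short (s - 1)).trans ?_
  refine Nat.pow_le_pow_left ?_ _
  refine Nat.add_le_add_right ?_ 1
  rw [Fintype.card_subtype]
  have h := card_short (α := Fin n × Bool) l
  rw [Fintype.card_prod, Fintype.card_fin, Fintype.card_bool, mul_comm n 2] at h
  exact h

/-- The hypothesis of a set of short terms. -/
noncomputable def hF {s l : ℕ} (D : Few n s l) : Hy n := by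
  classical
  exact hyp (D.1.image Subtype.val)

/-- One batch suffices. -/
theorem dnf_up {s l : ℕ} {ε δ : ℝ} (hs : 1 ≤ s) (hε : 0 < ε) (hδ : 0 < δ)
    (hl : s / ε ≤ 2 ^ l)
    (ht : 4 * s / ε * (l * Real.log (2 * n + 1) + Real.log (1 / δ)) ≤ t) :
    ∃ π : Prot 1 (Fin t → Ex n) (Hy n),
      (∀ j, π.load j ≤ Nat.clog 2 (((2 * n + 1) ^ l + 1) ^ (s - 1))) ∧
      π.Silent (Nat.clog 2 (((2 * n + 1) ^ l + 1) ^ (s - 1))) ∧
      ∀ f : Hy n, IsDnf s f → 1 - δ ≤ batchLearn π.run f ε := by
  classical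
  -- the picked hypothesis
  have hpick : ∀ e : Fin t → Ex n, ∃ D : Few n s l, ∃ D' ∈ cand n s l (Rt e),
      hF D = hyp D' ∧ ∀ D'' ∈ cand n s l (Rt e), (univ.filter fun x => hyp D'' x = true).card
        ≤ (univ.filter fun x => hyp D' x = true).card := by
    intro e
    obtain ⟨D', hD', hmax⟩ := exists_pick (n := n) (l := l) hs (Rt e)
    have h1 := mem_cand.1 hD'
    refine ⟨⟨(univ : Finset {T : Tm n // T.card ≤ l}).filter fun T => T.1 ∈ D', ?_⟩, D', hD', ?_,
      hmax⟩
    · have h2 : ((univ : Finset {T : Tm n // T.card ≤ l}).filter fun T => T.1 ∈ D').card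
          ≤ D'.card := by
        refine card_le_card_of_injOn Subtype.val ?_ (Subtype.val_injective.injOn)
        intro T hT
        exact (mem_filter.1 hT).2
      omega
    · unfold hF
      congr 1
      ext T
      simp only [mem_image, mem_filter, mem_univ, true_and]
      constructor
      · rintro ⟨T', h2, rfl⟩
        exact h2
      · intro hT
        exact ⟨⟨T, (h1.2 T hT).1⟩, hT, rfl⟩
  choose F D' hD' hFD hmax using hpick
  obtain ⟨π, hπ1, hπ2, hπ3⟩ := exists_one (E := Fin t → Ex n) (H := Hy n)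
    (A := Few n s l) (Nat.clog 2 (((2 * n + 1) ^ l + 1) ^ (s - 1)))
    ((card_Few n s l).trans (Nat.le_pow_clog (by norm_num) _)) F hF
  refine ⟨π, hπ2, hπ3, fun f hf => ?_⟩
  have hsR : (1 : ℝ) ≤ s := by exact_mod_cast hs
  have h2n : (0 : ℝ) < 2 ^ n := by positivity
  obtain ⟨τ, hτ⟩ : ∃ τ : ℝ, τ = ε / (4 * s) := ⟨_, rfl⟩
  have hτ0 : 0 < τ := by rw [hτ]; positivity
  -- the bad terms
  set Bad : Finset (Tm n) := univ.filter fun T => T.card ≤ l ∧
    τ * 2 ^ n < ((univ.filter fun x => sat T x ∧ f x = false).card : ℝ) with hBad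
  -- a failure means that some bad term is not refuted
  have hgood : ∀ X : Fin 1 → Fin t → Fin n → Bool,
      (∀ T ∈ Bad, ∃ i, sat T (X 0 i) ∧ f (X 0 i) = false) →
      err f (π.run fun i j => (X i j, f (X i j))) ≤ ε := by
    intro X h
    rw [hπ1, hFD]
    have h1 := err_pick hf (Z := Rt fun j => (X 0 j, f (X 0 j))) (by
        rintro T ⟨i, h2, h3⟩
        exact ⟨X 0 i, h2, h3⟩) hτ0.le (fun T hT hTZ => by
        by_contra hcon
        push Not at hcon
        obtain ⟨i, h2, h3⟩ := h T (mem_filter.2 ⟨mem_univ _, hT, hcon⟩)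
        exact hTZ ⟨i, h2, h3⟩) (hD' _) (hmax _)
    refine h1.trans ?_
    have h2 : (s : ℝ) / 2 ^ (l + 1) ≤ ε / 2 := by
      rw [pow_succ, div_le_div_iff₀ (by positivity) (by norm_num)]
      rw [div_le_iff₀ hε] at hl
      nlinarith
    have h3 : 2 * (s : ℝ) * τ = ε / 2 := by
      rw [hτ]
      field_simp
      norm_num
    linarith
  -- the probability that a bad term is not refuted
  have hbadT : ∀ T ∈ Bad, ((univ.filter fun X : Fin 1 → Fin t → Fin n → Bool =>
      ∀ i, ¬ (sat T (X 0 i) ∧ f (X 0 i) = false)).card : ℝ)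
      ≤ Real.exp (-(τ * t)) * (2 ^ n) ^ t := by
    intro T hT
    have hTb := (mem_filter.1 hT).2.2
    set Z : Finset (Fin n → Bool) := univ.filter fun x => sat T x ∧ f x = false with hZ
    have h1 : (univ.filter fun X : Fin 1 → Fin t → Fin n → Bool =>
        ∀ i, ¬ (sat T (X 0 i) ∧ f (X 0 i) = false)).card
        ≤ (Fintype.piFinset fun _ : Fin t => Zᶜ).card := by
      refine card_le_card_of_injOn (fun X => X 0) ?_ ?_
      · intro X hX
        have hX := (mem_filter.1 hX).2
        rw [mem_coe, Fintype.mem_piFinset]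
        intro i
        rw [mem_compl, hZ, mem_filter]
        exact fun h => hX i h.2
      · intro X _ Y _ hXY
        funext i
        rw [Subsingleton.elim i 0]
        exact hXY
    have h2 : ((Fintype.piFinset fun _ : Fin t => Zᶜ).card : ℝ)
        = ((2 : ℝ) ^ n - Z.card) ^ t := by
      rw [Fintype.card_piFinset_const, card_compl, Fintype.card_fun,
        Fintype.card_fin, Fintype.card_bool, Nat.cast_pow, Nat.cast_sub]
      · push_cast
        rfl
      · have := card_le_univ Z
        rwa [Fintype.card_fun, Fintype.card_fin, Fintype.card_bool] at this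
    have hZle : (Z.card : ℝ) ≤ 2 ^ n := by
      have := card_le_univ Z
      rw [Fintype.card_fun, Fintype.card_fin, Fintype.card_bool] at this
      exact_mod_cast this
    have h4 : (2 : ℝ) ^ n - Z.card ≤ Real.exp (-τ) * 2 ^ n := by
      have h5 := Real.add_one_le_exp (-τ)
      have h6 : (1 - τ) * 2 ^ n ≤ Real.exp (-τ) * 2 ^ n :=
        mul_le_mul_of_nonneg_right (by linarith) h2n.le
      linarith
    have h5 : (0 : ℝ) ≤ (2 : ℝ) ^ n - Z.card := by linarith
    have h1R : ((univ.filter fun X : Fin 1 → Fin t → Fin n → Bool =>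
        ∀ i, ¬ (sat T (X 0 i) ∧ f (X 0 i) = false)).card : ℝ)
        ≤ ((Fintype.piFinset fun _ : Fin t => Zᶜ).card : ℝ) := by exact_mod_cast h1
    rw [h2] at h1R
    refine h1R.trans ((pow_le_pow_left₀ h5 h4 t).trans (le_of_eq ?_))
    rw [mul_pow, ← Real.exp_nat_mul]
    congr 2
    ring
  -- the union bound
  have hunion : ((univ.filter fun X : Fin 1 → Fin t → Fin n → Bool =>
      ¬ err f (π.run fun i j => (X i j, f (X i j))) ≤ ε).card : ℝ)
      ≤ δ * (2 ^ n) ^ t := by
    have h1 : (univ.filter fun X : Fin 1 → Fin t → Fin n → Bool =>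
        ¬ err f (π.run fun i j => (X i j, f (X i j))) ≤ ε)
        ⊆ Bad.biUnion fun T => univ.filter fun X : Fin 1 → Fin t → Fin n → Bool =>
          ∀ i, ¬ (sat T (X 0 i) ∧ f (X 0 i) = false) := by
      intro X hX
      have hX := (mem_filter.1 hX).2
      by_contra hcon
      refine hX (hgood X fun T hT => ?_)
      rw [mem_biUnion] at hcon
      push Not at hcon
      have h2 := hcon T hT
      rw [mem_filter] at h2
      push Not at h2
      obtain ⟨i, h3⟩ := h2 (mem_univ _)
      exact ⟨i, h3⟩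
    have h2 : ((univ.filter fun X : Fin 1 → Fin t → Fin n → Bool =>
        ¬ err f (π.run fun i j => (X i j, f (X i j))) ≤ ε).card : ℝ)
        ≤ ∑ T ∈ Bad, ((univ.filter fun X : Fin 1 → Fin t → Fin n → Bool =>
          ∀ i, ¬ (sat T (X 0 i) ∧ f (X 0 i) = false)).card : ℝ) := by
      exact_mod_cast (card_le_card h1).trans card_biUnion_le
    have h3 := sum_le_card_nsmul Bad _ _ hbadT
    rw [nsmul_eq_mul] at h3
    have h4 : (Bad.card : ℝ) ≤ (2 * n + 1) ^ l := by
      have h5 : Bad.card ≤ (univ.filter fun T : Tm n => T.card ≤ l).card := by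
        refine card_le_card fun T hT => ?_
        exact mem_filter.2 ⟨mem_univ _, (mem_filter.1 hT).2.1⟩
      have h6 := h5.trans (card_short l)
      rw [Fintype.card_prod, Fintype.card_fin, Fintype.card_bool, mul_comm n 2] at h6
      exact_mod_cast h6
    have h5 : l * Real.log (2 * n + 1) + Real.log (1 / δ) ≤ τ * t := by
      have h6 : τ * (4 * s / ε * (l * Real.log (2 * n + 1) + Real.log (1 / δ)))
          = l * Real.log (2 * n + 1) + Real.log (1 / δ) := by
        rw [hτ]
        field_simp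
      rw [← h6]
      exact mul_le_mul_of_nonneg_left ht hτ0.le
    have h6 : ((2 * n + 1 : ℝ) ^ l) * Real.exp (-(τ * t)) ≤ δ := by
      have h7 : (2 * n + 1 : ℝ) ^ l = Real.exp (l * Real.log (2 * n + 1)) := by
        rw [Real.exp_nat_mul, Real.exp_log (by positivity)]
      rw [h7, ← Real.exp_add]
      calc Real.exp (l * Real.log (2 * n + 1) + -(τ * t))
          ≤ Real.exp (-Real.log (1 / δ)) := Real.exp_le_exp.2 (by linarith)
        _ = δ := by
          rw [one_div, Real.log_inv, neg_neg, Real.exp_log hδ]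
    have h8 : (0 : ℝ) ≤ Real.exp (-(τ * t)) * (2 ^ n) ^ t := by positivity
    calc _ ≤ _ := h2
      _ ≤ _ := h3
      _ ≤ ((2 * n + 1 : ℝ) ^ l) * (Real.exp (-(τ * t)) * (2 ^ n) ^ t) :=
        mul_le_mul_of_nonneg_right h4 h8
      _ = ((2 * n + 1 : ℝ) ^ l) * Real.exp (-(τ * t)) * (2 ^ n) ^ t := by ring
      _ ≤ _ := mul_le_mul_of_nonneg_right h6 (by positivity)
  have htot := card_filter_add_card_filter_not (s := (univ : Finset (Fin 1 → Fin t →
    Fin n → Bool))) (fun X => err f (π.run fun i j => (X i j, f (X i j))) ≤ ε)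
  have htotR : ((univ.filter fun X : Fin 1 → Fin t → Fin n → Bool =>
      err f (π.run fun i j => (X i j, f (X i j))) ≤ ε).card : ℝ)
      + ((univ.filter fun X : Fin 1 → Fin t → Fin n → Bool =>
      ¬ err f (π.run fun i j => (X i j, f (X i j))) ≤ ε).card : ℝ)
      = (2 ^ n) ^ t := by
    rw [← Nat.cast_add, htot, card_univ, Fintype.card_fun, Fintype.card_fun, Fintype.card_fun,
      Fintype.card_fin, Fintype.card_fin, Fintype.card_fin, Fintype.card_bool]
    push_cast
    ring
  unfold batchLearn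
  rw [le_div_iff₀ (by positivity), pow_one]
  have hfin : (1 - δ) * ((2 : ℝ) ^ n) ^ t ≤ ((univ.filter fun X : Fin 1 → Fin t → Fin n → Bool =>
      err f (π.run fun i j => (X i j, f (X i j))) ≤ ε).card : ℝ) := by linarith
  convert hfin using 3

end Pool.Agent.Q126.BD
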