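import Pool.Agent.Q126.BD.Up

/-!
One batch of nearly linear size and a short message suffice to learn DNF formulas weakly.
-/

set_option autoImplicit false

namespace Pool.Agent.Q126.BD

open Finset Pool.Agent.W964.Wd Pool.Agent.Y636.CL Pool.Agent.Q126.BL

variable {n t : ℕ}

/-- The error of a short term that is never refuted and true as often as possible. -/
theorem err_weak {s l : ℕ} (hs : 1 ≤ s) {f : (Fin n → Bool) → Bool} (hf : IsDnf s f)
    {Z : Set (Tm n)} (hZ : ∀ T ∈ Z, ∃ x, sat T x ∧ f x = false) (hl : 4 * s ≤ 2 ^ l)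
    (hbad : ∀ T : Tm n, T.card ≤ l → T ∉ Z →
      ((univ.filter fun x => sat T x ∧ f x = false).card : ℝ) ≤ 1 / (16 * s) * 2 ^ n)
    {D : Finset (Tm n)} (hD : D ∈ cand n 2 l Z) (hmax : ∀ D' ∈ cand n 2 l Z,
      (univ.filter fun x => hyp D' x = true).card ≤ (univ.filter fun x => hyp D x = true).card)
    (hp : ((univ.filter fun x => f x = true).card : ℝ) ≤ (1 / 2 + 1 / (16 * s)) * 2 ^ n) :
    err f (hyp D) ≤ 1 / 2 - 1 / (16 * s) := by
  classical
  obtain ⟨r, t, hr, ht⟩ := hf
  have h2n : (0 : ℝ) < 2 ^ n := by positivity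
  have hsR : (1 : ℝ) ≤ s := by exact_mod_cast hs
  have hs0 : (0 : ℝ) < s := by linarith
  rw [mem_cand] at hD
  obtain ⟨τ, hτ⟩ : ∃ τ : ℝ, τ = 1 / (16 * s) := ⟨_, rfl⟩
  rw [← hτ] at hbad hp ⊢
  have hτ0 : 0 < τ := by rw [hτ]; positivity
  have hτ16 : τ ≤ 1 / 16 := by
    rw [hτ]
    exact div_le_div_of_nonneg_left (by norm_num) (by norm_num) (by linarith)
  -- the false positives
  have hfp : ((univ.filter fun x => hyp D x = true ∧ f x = false).card : ℝ) ≤ τ * 2 ^ n := by
    have h1 : (univ.filter fun x => hyp D x = true ∧ f x = false) ⊆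
        D.biUnion fun T => univ.filter fun x => sat T x ∧ f x = false := by
      intro x hx
      obtain ⟨hx1, hx2⟩ := (mem_filter.1 hx).2
      obtain ⟨T, hT, hTx⟩ := (hyp_eq D x).1 hx1
      rw [mem_biUnion]
      exact ⟨T, hT, mem_filter.2 ⟨mem_univ _, hTx, hx2⟩⟩
    have h2 : ((univ.filter fun x => hyp D x = true ∧ f x = false).card : ℝ)
        ≤ ∑ T ∈ D, ((univ.filter fun x => sat T x ∧ f x = false).card : ℝ) := by
      exact_mod_cast (card_le_card h1).trans card_biUnion_le
    have h3 := sum_le_card_nsmul D _ _ fun T hT => hbad T (hD.2 T hT).1 (hD.2 T hT).2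
    rw [nsmul_eq_mul] at h3
    have h4 : (D.card : ℝ) ≤ 1 := by exact_mod_cast (by omega : D.card ≤ 1)
    have h5 := mul_le_mul_of_nonneg_right h4 (by positivity : (0 : ℝ) ≤ τ * 2 ^ n)
    linarith
  -- counting
  have hc1 : ((univ.filter fun x => hyp D x = true).card : ℝ)
      = (univ.filter fun x => hyp D x = true ∧ f x = true).card
        + (univ.filter fun x => hyp D x = true ∧ f x = false).card := by
    rw [← Nat.cast_add, ← card_filter_add_card_filter_not (fun x => f x = true),
      filter_filter, filter_filter]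
    congr 4
    ext x
    simp
  have hc2 : ((univ.filter fun x => f x = true).card : ℝ)
      = (univ.filter fun x => hyp D x = true ∧ f x = true).card
        + (univ.filter fun x => hyp D x = false ∧ f x = true).card := by
    rw [← Nat.cast_add, ← card_filter_add_card_filter_not (fun x => hyp D x = true),
      filter_filter, filter_filter]
    congr 3
    · ext x
      simp [and_comm]
    · ext x
      simp [and_comm]
  have hc3 : ((univ.filter fun x => hyp D x ≠ f x).card : ℝ)
      ≤ (univ.filter fun x => hyp D x = true ∧ f x = false).card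
        + (univ.filter fun x => hyp D x = false ∧ f x = true).card := by
    rw [← Nat.cast_add, ← card_union_of_disjoint]
    · refine Nat.cast_le.2 (card_le_card ?_)
      intro x hx
      have hx := (mem_filter.1 hx).2
      rw [mem_union, mem_filter, mem_filter]
      revert hx
      cases hyp D x <;> cases f x <;> simp
    · rw [disjoint_filter]
      rintro x _ ⟨h1, _⟩ ⟨h2, _⟩
      rw [h1] at h2
      exact Bool.noConfusion h2
  have herr : err f (hyp D) * 2 ^ n ≤ ((univ.filter fun x => f x = true).card : ℝ)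
      - ((univ.filter fun x => hyp D x = true).card : ℝ) + 2 * (τ * 2 ^ n) := by
    have e : err f (hyp D) * 2 ^ n = ((univ.filter fun x => hyp D x ≠ f x).card : ℝ) := by
      unfold err
      rw [div_mul_cancel₀ _ h2n.ne']
    rw [e]
    linarith
  have hfin : ∀ y : ℝ, err f (hyp D) * 2 ^ n ≤ y * 2 ^ n → err f (hyp D) ≤ y := fun y h =>
    le_of_mul_le_mul_right h h2n
  refine hfin _ (herr.trans ?_)
  have hD0 : (0 : ℝ) ≤ ((univ.filter fun x => hyp D x = true).card : ℝ) := Nat.cast_nonneg _
  by_cases hcase : ((univ.filter fun x => f x = true).card : ℝ) ≤ 1 / 4 * 2 ^ n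
  · have h1 : 3 * (τ * 2 ^ n) ≤ 3 * (1 / 16 * 2 ^ n) :=
      mul_le_mul_of_nonneg_left (mul_le_mul_of_nonneg_right hτ16 h2n.le) (by norm_num)
    have h2 : (1 / 2 - τ) * (2 : ℝ) ^ n = 1 / 2 * 2 ^ n - τ * 2 ^ n := by ring
    rw [h2]
    linarith
  · push Not at hcase
    -- some term is often true
    have hex : ∃ i : Fin r, 1 / 4 * 2 ^ n / s < ((univ.filter fun x => sat (t i) x).card : ℝ) := by
      by_contra hcon
      push Not at hcon
      have h1 : (univ.filter fun x => f x = true) ⊆
          (univ : Finset (Fin r)).biUnion fun i => univ.filter fun x => sat (t i) x := by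
        intro x hx
        obtain ⟨i, hi⟩ := (ht x).1 (mem_filter.1 hx).2
        rw [mem_biUnion]
        exact ⟨i, mem_univ _, mem_filter.2 ⟨mem_univ _, hi⟩⟩
      have h2 : ((univ.filter fun x => f x = true).card : ℝ)
          ≤ ∑ i : Fin r, ((univ.filter fun x => sat (t i) x).card : ℝ) := by
        exact_mod_cast (card_le_card h1).trans card_biUnion_le
      have h3 := sum_le_card_nsmul (univ : Finset (Fin r)) _ _ fun i _ => hcon i
      rw [nsmul_eq_mul, card_univ, Fintype.card_fin] at h3
      have h4 : (r : ℝ) ≤ s := by exact_mod_cast (by omega : r ≤ s)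
      have h5 : (r : ℝ) * (1 / 4 * 2 ^ n / s) ≤ s * (1 / 4 * 2 ^ n / s) :=
        mul_le_mul_of_nonneg_right h4 (by positivity)
      have h6 : (s : ℝ) * (1 / 4 * 2 ^ n / s) = 1 / 4 * 2 ^ n := by field_simp
      linarith
    obtain ⟨i, hi⟩ := hex
    have hil : (t i).card ≤ l := by
      have h1 : (2 : ℝ) ^ (t i).card * ((univ.filter fun x => sat (t i) x).card : ℝ) ≤ 2 ^ n := by
        exact_mod_cast card_sat_le (t i)
      have h2 : (2 : ℝ) ^ (t i).card * (1 / 4 * 2 ^ n / s) < 2 ^ n := by
        refine lt_of_lt_of_le ?_ h1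
        exact mul_lt_mul_of_pos_left hi (by positivity)
      have h3 : (2 : ℝ) ^ (t i).card < 4 * s := by
        have e : (2 : ℝ) ^ (t i).card * (1 / 4 * 2 ^ n / s)
            = (2 : ℝ) ^ (t i).card / (4 * s) * 2 ^ n := by
          field_simp
        rw [e] at h2
        have h4 : (2 : ℝ) ^ (t i).card / (4 * s) < 1 := by
          by_contra h5
          push Not at h5
          have := mul_le_mul_of_nonneg_right h5 h2n.le
          linarith
        rwa [div_lt_one (by positivity)] at h4
      have h4 : (4 * s : ℝ) ≤ 2 ^ l := by exact_mod_cast hl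
      have h5 : (2 : ℝ) ^ (t i).card < 2 ^ l := h3.trans_le h4
      exact ((pow_lt_pow_iff_right₀ (by norm_num)).1 h5).le
    have hcand : {t i} ∈ cand n 2 l Z := by
      rw [mem_cand]
      refine ⟨by simp, ?_⟩
      intro T hT
      rw [mem_singleton] at hT
      subst hT
      refine ⟨hil, fun hz => ?_⟩
      obtain ⟨x, hx, hfx⟩ := hZ _ hz
      have : f x = true := (ht x).2 ⟨i, hx⟩
      rw [hfx] at this
      exact Bool.noConfusion this
    have h1 := hmax _ hcand
    have h2 : (univ.filter fun x => hyp {t i} x = true) = univ.filter fun x => sat (t i) x := by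
      ext x
      rw [mem_filter, mem_filter, hyp_eq]
      simp
    rw [h2] at h1
    have h1R : ((univ.filter fun x => sat (t i) x).card : ℝ)
        ≤ ((univ.filter fun x => hyp D x = true).card : ℝ) := by exact_mod_cast h1
    have h3 : 1 / 4 * 2 ^ n / s = 4 * (τ * 2 ^ n) := by
      rw [hτ]; field_simp; norm_num
    have h4 : (1 / 2 - τ) * (2 : ℝ) ^ n = 1 / 2 * 2 ^ n - τ * 2 ^ n := by ring
    have h5 : (1 / 2 + τ) * (2 : ℝ) ^ n = 1 / 2 * 2 ^ n + τ * 2 ^ n := by ring
    rw [h5] at hp
    rw [h3] at hi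
    rw [h4]
    linarith

/-- With high probability every bad short term is refuted by a large batch. -/
theorem refute_prob {l : ℕ} {δ τ : ℝ} (hδ : 0 < δ) (f : Hy n)
    (ht : l * Real.log (2 * n + 1) + Real.log (1 / δ) ≤ τ * t) :
    ((univ.filter fun X : Fin 1 → Fin t → Fin n → Bool => ∃ T : Tm n, T.card ≤ l ∧
      τ * 2 ^ n < ((univ.filter fun x => sat T x ∧ f x = false).card : ℝ) ∧
      ∀ i, ¬ (sat T (X 0 i) ∧ f (X 0 i) = false)).card : ℝ) ≤ δ * (2 ^ n) ^ t := by
  classical
  have h2n : (0 : ℝ) < 2 ^ n := by positivity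
  set Bad : Finset (Tm n) := univ.filter fun T => T.card ≤ l ∧
    τ * 2 ^ n < ((univ.filter fun x => sat T x ∧ f x = false).card : ℝ) with hBad
  -- the probability that a bad term is not refuted
  have hbadT : ∀ T ∈ Bad, ((univ.filter fun X : Fin 1 → Fin t → Fin n → Bool =>
      ∀ i, ¬ (sat T (X 0 i) ∧ f (X 0 i) = false)).card : ℝ)
      ≤ Real.exp (-(τ * t)) * (2 ^ n) ^ t := by
    intro T hT
    have hTb := (mem_filter.1 hT).2.2
    set Z : Finset (Fin n → Bool) := univ.filter fun x => sat T x ∧ f x = false with hZ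
    have h1 : (univ.filter fun X : Fin 1 → Fin t → Fin n → Bool =>
        ∀ i, ¬ (sat T (X 0 i) ∧ f (X 0 i) = false)).card
        ≤ (Fintype.piFinset fun _ : Fin t => Zᶜ).card := by
      refine card_le_card_of_injOn (fun X => X 0) ?_ ?_
      · intro X hX
        have hX := (mem_filter.1 hX).2
        rw [mem_coe, Fintype.mem_piFinset]
        intro i
        rw [mem_compl, hZ, mem_filter]
        exact fun h => hX i h.2
      · intro X _ Y _ hXY
        funext i
        rw [Subsingleton.elim i 0]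
        exact hXY
    have h2 : ((Fintype.piFinset fun _ : Fin t => Zᶜ).card : ℝ)
        = ((2 : ℝ) ^ n - Z.card) ^ t := by
      rw [Fintype.card_piFinset_const, card_compl, Fintype.card_fun,
        Fintype.card_fin, Fintype.card_bool, Nat.cast_pow, Nat.cast_sub]
      · push_cast
        rfl
      · have := card_le_univ Z
        rwa [Fintype.card_fun, Fintype.card_fin, Fintype.card_bool] at this
    have hZle : (Z.card : ℝ) ≤ 2 ^ n := by
      have := card_le_univ Z
      rw [Fintype.card_fun, Fintype.card_fin, Fintype.card_bool] at this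
      exact_mod_cast this
    have h4 : (2 : ℝ) ^ n - Z.card ≤ Real.exp (-τ) * 2 ^ n := by
      have h5 := Real.add_one_le_exp (-τ)
      have h6 : (1 - τ) * 2 ^ n ≤ Real.exp (-τ) * 2 ^ n :=
        mul_le_mul_of_nonneg_right (by linarith) h2n.le
      linarith
    have h5 : (0 : ℝ) ≤ (2 : ℝ) ^ n - Z.card := by linarith
    have h1R : ((univ.filter fun X : Fin 1 → Fin t → Fin n → Bool =>
        ∀ i, ¬ (sat T (X 0 i) ∧ f (X 0 i) = false)).card : ℝ)
        ≤ ((Fintype.piFinset fun _ : Fin t => Zᶜ).card : ℝ) := by exact_mod_cast h1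
    rw [h2] at h1R
    refine h1R.trans ((pow_le_pow_left₀ h5 h4 t).trans (le_of_eq ?_))
    rw [mul_pow, ← Real.exp_nat_mul]
    congr 2
    ring
  have h1 : (univ.filter fun X : Fin 1 → Fin t → Fin n → Bool => ∃ T : Tm n, T.card ≤ l ∧
      τ * 2 ^ n < ((univ.filter fun x => sat T x ∧ f x = false).card : ℝ) ∧
      ∀ i, ¬ (sat T (X 0 i) ∧ f (X 0 i) = false))
      ⊆ Bad.biUnion fun T => univ.filter fun X : Fin 1 → Fin t → Fin n → Bool =>
        ∀ i, ¬ (sat T (X 0 i) ∧ f (X 0 i) = false) := by
    intro X hX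
    obtain ⟨T, h2, h3, h4⟩ := (mem_filter.1 hX).2
    rw [mem_biUnion]
    exact ⟨T, mem_filter.2 ⟨mem_univ _, h2, h3⟩, mem_filter.2 ⟨mem_univ _, h4⟩⟩
  have h2 : ((univ.filter fun X : Fin 1 → Fin t → Fin n → Bool => ∃ T : Tm n, T.card ≤ l ∧
      τ * 2 ^ n < ((univ.filter fun x => sat T x ∧ f x = false).card : ℝ) ∧
      ∀ i, ¬ (sat T (X 0 i) ∧ f (X 0 i) = false)).card : ℝ)
      ≤ ∑ T ∈ Bad, ((univ.filter fun X : Fin 1 → Fin t → Fin n → Bool =>
        ∀ i, ¬ (sat T (X 0 i) ∧ f (X 0 i) = false)).card : ℝ) := by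
    exact_mod_cast (card_le_card h1).trans card_biUnion_le
  have h3 := sum_le_card_nsmul Bad _ _ hbadT
  rw [nsmul_eq_mul] at h3
  have h4 : (Bad.card : ℝ) ≤ (2 * n + 1) ^ l := by
    have h5 : Bad.card ≤ (univ.filter fun T : Tm n => T.card ≤ l).card := by
      refine card_le_card fun T hT => ?_
      exact mem_filter.2 ⟨mem_univ _, (mem_filter.1 hT).2.1⟩
    have h6 := h5.trans (card_short l)
    rw [Fintype.card_prod, Fintype.card_fin, Fintype.card_bool, mul_comm n 2] at h6
    exact_mod_cast h6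
  have h6 : ((2 * n + 1 : ℝ) ^ l) * Real.exp (-(τ * t)) ≤ δ := by
    have h7 : (2 * n + 1 : ℝ) ^ l = Real.exp (l * Real.log (2 * n + 1)) := by
      rw [Real.exp_nat_mul, Real.exp_log (by positivity)]
    rw [h7, ← Real.exp_add]
    calc Real.exp (l * Real.log (2 * n + 1) + -(τ * t))
        ≤ Real.exp (-Real.log (1 / δ)) := Real.exp_le_exp.2 (by linarith)
      _ = δ := by
        rw [one_div, Real.log_inv, neg_neg, Real.exp_log hδ]
  have h8 : (0 : ℝ) ≤ Real.exp (-(τ * t)) * (2 ^ n) ^ t := by positivity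
  calc _ ≤ _ := h2
    _ ≤ _ := h3
    _ ≤ ((2 * n + 1 : ℝ) ^ l) * (Real.exp (-(τ * t)) * (2 ^ n) ^ t) :=
      mul_le_mul_of_nonneg_right h4 h8
    _ = ((2 * n + 1 : ℝ) ^ l) * Real.exp (-(τ * t)) * (2 ^ n) ^ t := by ring
    _ ≤ _ := mul_le_mul_of_nonneg_right h6 (by positivity)

theorem batchLearn_one_le {A : (Fin 1 → Fin t → Ex n) → Hy n} {f : Hy n} {η δ : ℝ}
    (h : ((univ.filter fun X : Fin 1 → Fin t → Fin n → Bool =>
      ¬ err f (A fun i j => (X i j, f (X i j))) ≤ η).card : ℝ) ≤ δ * (2 ^ n) ^ t) :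
    1 - δ ≤ batchLearn A f η := by
  classical
  have htot := card_filter_add_card_filter_not (s := (univ : Finset (Fin 1 → Fin t →
    Fin n → Bool))) (fun X => err f (A fun i j => (X i j, f (X i j))) ≤ η)
  have htotR : ((univ.filter fun X : Fin 1 → Fin t → Fin n → Bool =>
      err f (A fun i j => (X i j, f (X i j))) ≤ η).card : ℝ)
      + ((univ.filter fun X : Fin 1 → Fin t → Fin n → Bool =>
      ¬ err f (A fun i j => (X i j, f (X i j))) ≤ η).card : ℝ)
      = (2 ^ n) ^ t := by
    rw [← Nat.cast_add, htot, card_univ, Fintype.card_fun, Fintype.card_fun, Fintype.card_fun,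
      Fintype.card_fin, Fintype.card_fin, Fintype.card_fin, Fintype.card_bool]
    push_cast
    ring
  unfold batchLearn
  rw [le_div_iff₀ (by positivity), pow_one]
  have hfin : (1 - δ) * ((2 : ℝ) ^ n) ^ t ≤ ((univ.filter fun X : Fin 1 → Fin t → Fin n → Bool =>
      err f (A fun i j => (X i j, f (X i j))) ≤ η).card : ℝ) := by linarith
  convert hfin using 3

/-- One batch of nearly linear size and a message with the length of one term suffice for weak
learning. -/
theorem dnf_weak {s l : ℕ} {δ : ℝ} (hs : 1 ≤ s) (hδ : 0 < δ) (hl : 4 * s ≤ 2 ^ l)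
    (ht : 16 * s * (l * Real.log (2 * n + 1) + Real.log (1 / δ)) ≤ t) :
    ∃ π : Bool → Prot 1 (Fin t → Ex n) (Hy n),
      (∀ r j, (π r).load j ≤ Nat.clog 2 ((2 * n + 1) ^ l + 1)) ∧
      (∀ r, (π r).Silent (Nat.clog 2 ((2 * n + 1) ^ l + 1))) ∧
      ∀ f : Hy n, IsDnf s f →
        (1 - δ) / 2 ≤ batchLearnR (fun r => (π r).run) f (1 / 2 - 1 / (16 * s)) := by
  classical
  -- the picked hypothesis
  have hpick : ∀ e : Fin t → Ex n, ∃ D : Few n 2 l, ∃ D' ∈ cand n 2 l (Rt e),
      hF D = hyp D' ∧ ∀ D'' ∈ cand n 2 l (Rt e), (univ.filter fun x => hyp D'' x = true).card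
        ≤ (univ.filter fun x => hyp D' x = true).card := by
    intro e
    obtain ⟨D', hD', hmax⟩ := exists_pick (n := n) (l := l) (s := 2) (by norm_num) (Rt e)
    have h1 := mem_cand.1 hD'
    refine ⟨⟨(univ : Finset {T : Tm n // T.card ≤ l}).filter fun T => T.1 ∈ D', ?_⟩, D', hD', ?_,
      hmax⟩
    · have h2 : ((univ : Finset {T : Tm n // T.card ≤ l}).filter fun T => T.1 ∈ D').card
          ≤ D'.card := by
        refine card_le_card_of_injOn Subtype.val ?_ (Subtype.val_injective.injOn)
        intro T hT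
        exact (mem_filter.1 hT).2
      omega
    · unfold hF
      congr 1
      ext T
      simp only [mem_image, mem_filter, mem_univ, true_and]
      constructor
      · rintro ⟨T', h2, rfl⟩
        exact h2
      · intro hT
        exact ⟨⟨T, (h1.2 T hT).1⟩, hT, rfl⟩
  choose F D' hD' hFD hmax using hpick
  have hcF : Fintype.card (Few n 2 l) ≤ 2 ^ Nat.clog 2 ((2 * n + 1) ^ l + 1) := by
    have h : Fintype.card (Few n 2 l) ≤ (2 * n + 1) ^ l + 1 :=
      (card_Few n 2 l).trans (le_of_eq (pow_one _))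
    exact h.trans (Nat.le_pow_clog (by norm_num) _)
  obtain ⟨π₁, hπ1, hπ2, hπ3⟩ := exists_one (E := Fin t → Ex n) (H := Hy n)
    (A := Few n 2 l) (Nat.clog 2 ((2 * n + 1) ^ l + 1)) hcF F hF
  obtain ⟨π₂, hρ1, hρ2, hρ3⟩ := exists_one (E := Fin t → Ex n) (H := Hy n)
    (A := Few n 2 l) (Nat.clog 2 ((2 * n + 1) ^ l + 1)) hcF F (fun _ _ => true)
  refine ⟨fun r => if r then π₁ else π₂, ?_, ?_, fun f hf => ?_⟩
  · intro r j
    cases r
    · exact hρ2 j
    · exact hπ2 j
  · intro r
    cases r
    · exact hρ3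
    · exact hπ3
  have hsR : (1 : ℝ) ≤ s := by exact_mod_cast hs
  have h2n : (0 : ℝ) < 2 ^ n := by positivity
  have hnn : ∀ (A : (Fin 1 → Fin t → Ex n) → Hy n) (η : ℝ), 0 ≤ batchLearn A f η := by
    intro A η
    unfold batchLearn
    positivity
  have hR : ∀ η : ℝ, batchLearnR (fun r => (if r = true then π₁ else π₂ :
      Prot 1 (Fin t → Ex n) (Hy n)).run) f η
      = (batchLearn π₁.run f η + batchLearn π₂.run f η) / 2 := by
    intro η
    unfold batchLearnR
    rw [Fintype.sum_bool, Fintype.card_bool]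
    norm_num
  rw [hR]
  refine div_le_div_of_nonneg_right ?_ (by norm_num)
  by_cases hp : ((univ.filter fun x => f x = true).card : ℝ) ≤ (1 / 2 + 1 / (16 * s)) * 2 ^ n
  · -- the picked term is good
    have h1 : 1 - δ ≤ batchLearn π₁.run f (1 / 2 - 1 / (16 * s)) := by
      refine batchLearn_one_le ((Nat.cast_le.2 (card_le_card ?_)).trans
        (refute_prob (l := l) (τ := 1 / (16 * s)) hδ f ?_))
      · intro X hX
        have hX := (mem_filter.1 hX).2
        rw [mem_filter]
        refine ⟨mem_univ _, ?_⟩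
        by_contra hcon
        push Not at hcon
        refine hX ?_
        rw [hπ1, hFD]
        refine err_weak hs hf (Z := Rt fun j => (X 0 j, f (X 0 j))) (by
          rintro T ⟨i, h2, h3⟩
          exact ⟨X 0 i, h2, h3⟩) hl (fun T hT hTZ => ?_) (hD' _) (hmax _) hp
        by_contra hcon2
        push Not at hcon2
        obtain ⟨i, h2, h3⟩ := hcon T hT hcon2
        exact hTZ ⟨i, h2, h3⟩
      · have h1 : 1 / (16 * (s : ℝ)) * (16 * s * (l * Real.log (2 * n + 1) + Real.log (1 / δ)))
            = l * Real.log (2 * n + 1) + Real.log (1 / δ) := by field_simp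
        rw [← h1]
        exact mul_le_mul_of_nonneg_left ht (by positivity)
    have h2 := hnn π₂.run (1 / 2 - 1 / (16 * s))
    linarith
  · push Not at hp
    have herr : err f (fun _ => true) ≤ 1 / 2 - 1 / (16 * s) := by
      unfold err
      rw [div_le_iff₀ h2n]
      have h1 : (univ.filter fun x : Fin n → Bool => true ≠ f x)
          = univ.filter fun x => ¬ f x = true := by
        ext x
        rw [mem_filter, mem_filter]
        cases f x <;> simp
      rw [h1]
      have h2 := card_filter_add_card_filter_not (s := (univ : Finset (Fin n → Bool)))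
        (fun x => f x = true)
      rw [card_univ, Fintype.card_fun, Fintype.card_fin, Fintype.card_bool] at h2
      have h2R : ((univ.filter fun x => f x = true).card : ℝ)
          + ((univ.filter fun x => ¬ f x = true).card : ℝ) = 2 ^ n := by exact_mod_cast h2
      have h3 : (1 / 2 - 1 / (16 * (s : ℝ))) * 2 ^ n
          = 1 / 2 * 2 ^ n - 1 / (16 * (s : ℝ)) * 2 ^ n := by ring
      have h4 : (1 / 2 + 1 / (16 * (s : ℝ))) * 2 ^ n
          = 1 / 2 * 2 ^ n + 1 / (16 * (s : ℝ)) * 2 ^ n := by ring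
      rw [h4] at hp
      rw [h3]
      linarith
    have h1 : 1 - δ ≤ batchLearn π₂.run f (1 / 2 - 1 / (16 * s)) := by
      refine batchLearn_one_le ?_
      have h2 : (univ.filter fun X : Fin 1 → Fin t → Fin n → Bool =>
          ¬ err f (π₂.run fun i j => (X i j, f (X i j))) ≤ 1 / 2 - 1 / (16 * s)) = ∅ := by
        rw [filter_eq_empty_iff]
        intro X _ h
        refine h ?_
        rw [hρ1]
        exact herr
      rw [h2]
      simp only [card_empty, Nat.cast_zero]
      positivity
    have h2 := hnn π₁.run (1 / 2 - 1 / (16 * s))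
    linarith

end Pool.Agent.Q126.BD
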